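import Pool.Agent.Sch2.Good

/-!
# MP_aa5fad_nt: the Scholz inequality up to the number of small steps: definitions
-/

set_option autoImplicit false

namespace Pool.Agent.SchP

open Finset
open Pool.Agent.SchK (IsChain len ones nd)
open Pool.Agent.Sch2 (Good)

/-- there is a closed set with at most `d + k` elements which contains `2 ^ d - 1` and the numbers
`2 ^ v - 1`, `v ∈ S`, `v ≥ 1` -/
def P (S : Finset ℕ) (d k : ℕ) : Prop :=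
  ∃ X : Finset ℕ, Good X (d + k) ∧ 2 ^ d - 1 ∈ X ∧ ∀ v ∈ S, 1 ≤ v → 2 ^ v - 1 ∈ X

/-- the runs `g 0 = 1, ..., g m` of a chain, and the positions `j = 0, ..., 2 m`, i.e. the elements
`2 ^ e j * g (ρ j)`: `g (c + 1)` is the sum of the positions `2 c` and `2 c + 1` -/
structure Sys (m : ℕ) (g ρ e : ℕ → ℕ) : Prop where
  zero : g 0 = 1
  eq : ∀ c < m, g (c + 1) = 2 ^ e (2 * c) * g (ρ (2 * c)) + 2 ^ e (2 * c + 1) * g (ρ (2 * c + 1))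
  le0 : ∀ c < m, ρ (2 * c) ≤ c
  le1 : ∀ c < m, ρ (2 * c + 1) ≤ c
  top : ρ (2 * m) = m
  dom : ∀ j ≤ 2 * m, ∀ c, ρ j < c → c ≤ m → 2 ^ e j * g (ρ j) ≤ g c

/-- `v` is a sum of at most `M` positions of runs `≤ c` -/
def Rep (m : ℕ) (g ρ e : ℕ → ℕ) (c M v : ℕ) : Prop :=
  ∃ μ : ℕ → ℕ, ∑ j ∈ range (2 * m + 1), μ j ≤ M ∧
    (∀ j ∈ range (2 * m + 1), c < ρ j → μ j = 0) ∧
    v = ∑ j ∈ range (2 * m + 1), μ j * (2 ^ e j * g (ρ j))

/-- `v = γ g (c + 1) + L` with `γ ≤ Γ`, `L ≤ M g (c + 1)`, and all `r g (c + 1) + L` are sums of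
positions of runs `≤ c` -/
def Th (m : ℕ) (g ρ e : ℕ → ℕ) (c M Γ v : ℕ) : Prop :=
  ∃ γ L : ℕ, v = γ * g (c + 1) + L ∧ γ ≤ Γ ∧ L ≤ M * g (c + 1) ∧
    ∀ r, Rep m g ρ e c (M + 2 * r) (r * g (c + 1) + L)

/-- the number of positions in the run `c` -/
def Kc (m : ℕ) (ρ : ℕ → ℕ) (c : ℕ) : ℕ := ((range (2 * m + 1)).filter (fun j => ρ j = c)).card

/-- no multiple of `q` among `γ + 1, ..., γ + J` -/
def Stb (q J γ : ℕ) : Prop := ∀ t, 1 ≤ t → t ≤ J → ¬ q ∣ γ + t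

end Pool.Agent.SchP
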