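import Pool.Agent.SchP.Targets

/-!
# SchP, target `T_AVD`: small numbers which divide no member of a given set
-/

set_option autoImplicit false

namespace Pool.Agent.SchP

open Finset

namespace AVD_

/-- `θ n ≥ n log 2 / 2` for large `n` -/
theorem theta_large : ∃ n₀ : ℕ, ∀ n : ℕ, n₀ ≤ n →
    (n : ℝ) * Real.log 2 / 2 < Chebyshev.theta n := by
  have h1 := (isLittleO_log_rpow_atTop (r := 1 / 2) (by norm_num)).bound
    (c := 1 / 100) (by norm_num)
  obtain ⟨x₀, hx₀⟩ := Filter.eventually_atTop.1 h1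
  refine ⟨⌈max x₀ 100⌉₊, fun n hn => ?_⟩
  have hn1 : max x₀ 100 ≤ (n : ℝ) := Nat.ceil_le.1 hn
  have h2 := hx₀ n (le_trans (le_max_left _ _) hn1)
  have h100 : (100 : ℝ) ≤ n := le_trans (le_max_right _ _) hn1
  have hl0 : 0 ≤ Real.log n := Real.log_nonneg (by linarith)
  rw [Real.norm_of_nonneg hl0, Real.norm_of_nonneg (by positivity),
    ← Real.sqrt_eq_rpow] at h2
  have h3 := Chebyshev.theta_ge n
  have hs0 : 0 ≤ √(n : ℝ) := Real.sqrt_nonneg _
  have h4 : √(n : ℝ) * √(n : ℝ) = n := Real.mul_self_sqrt (by linarith)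
  have h5 : √(n : ℝ) ≤ n := by
    rw [Real.sqrt_le_iff]
    constructor
    · linarith
    · nlinarith
  have hl2 := Real.log_two_gt_d9
  have hl3 := Real.log_two_lt_d9
  have h6 : Real.log ((n : ℝ) + 1) ≤ 1 + Real.log n := by
    calc Real.log ((n : ℝ) + 1) ≤ Real.log (2 * n) :=
          Real.log_le_log (by linarith) (by linarith)
      _ = Real.log 2 + Real.log n := Real.log_mul (by norm_num) (by linarith)
      _ ≤ 1 + Real.log n := by linarith
  have h7 : 2 * √(n : ℝ) * Real.log n ≤ n / 50 := by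
    calc 2 * √(n : ℝ) * Real.log n ≤ 2 * √(n : ℝ) * (1 / 100 * √(n : ℝ)) := by gcongr
      _ = (√(n : ℝ) * √(n : ℝ)) / 50 := by ring
      _ = n / 50 := by rw [h4]
  have h8 : (n : ℝ) * (69 / 100) ≤ n * Real.log 2 := by
    gcongr
    linarith
  linarith

end AVD_

open AVD_ in
theorem p_AVD : T_AVD := by
  obtain ⟨n₀, hn₀⟩ := theta_large
  refine ⟨n₀ + 4, fun N Z s hN hZ hcard hs => ?_⟩
  by_contra hc
  push Not at hc
  obtain ⟨n, hn⟩ : ∃ n, n = (n₀ + 4) * (N * Z) := ⟨_, rfl⟩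
  have hNZ : 1 ≤ N * Z := Nat.succ_le_of_lt (by positivity)
  have h1 : n₀ ≤ n := by
    rw [hn]
    calc n₀ ≤ (n₀ + 4) * 1 := by omega
      _ ≤ (n₀ + 4) * (N * Z) := Nat.mul_le_mul_left _ hNZ
  have h2 : 4 * (N * Z) ≤ n := by
    rw [hn]
    exact Nat.mul_le_mul_right _ (by omega)
  have h3 : primorial n ∣ ∏ x ∈ s, x := by
    unfold primorial
    refine Finset.prod_primes_dvd _ (fun p hp => (mem_filter.1 hp).2.prime) (fun p hp => ?_)
    obtain ⟨hp1, hp2⟩ := mem_filter.1 hp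
    obtain ⟨x, hx1, hx2⟩ := hc p hp2.one_lt.le (by
      rw [← hn]
      have := mem_range.1 hp1
      omega)
    exact hx2.trans (Finset.dvd_prod_of_mem _ hx1)
  have hpos : 0 < ∏ x ∈ s, x := Finset.prod_pos fun x hx => (hs x hx).1
  have h4 : ∏ x ∈ s, x ≤ 2 ^ (N * Z) := by
    calc ∏ x ∈ s, x ≤ (2 ^ Z) ^ s.card := Finset.prod_le_pow_card _ _ _ fun x hx => (hs x hx).2
      _ ≤ (2 ^ Z) ^ N := Nat.pow_le_pow_right (by positivity) hcard
      _ = 2 ^ (N * Z) := by rw [← pow_mul, mul_comm]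
  have h5 : primorial n ≤ 2 ^ (N * Z) := (Nat.le_of_dvd hpos h3).trans h4
  have h6 : Chebyshev.theta n ≤ ((N * Z : ℕ) : ℝ) * Real.log 2 := by
    rw [Chebyshev.theta_eq_log_primorial, Nat.floor_natCast, ← Real.log_pow]
    refine Real.log_le_log (by exact_mod_cast primorial_pos n) ?_
    exact_mod_cast h5
  have h7 := hn₀ n h1
  have h8 : (4 : ℝ) * ((N * Z : ℕ) : ℝ) ≤ n := by exact_mod_cast h2
  have h9 : (1 : ℝ) ≤ ((N * Z : ℕ) : ℝ) := by exact_mod_cast hNZ
  have h10 := Real.log_two_gt_d9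
  nlinarith

end Pool.Agent.SchP
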