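import Pool.Agent.SchP.P_LIN

/-!
# SchP, target `T_FIN`: the theorem
-/

set_option autoImplicit false

namespace Pool.Agent.SchP

open Finset
open Pool.Agent.SchK (IsChain len ones nd)
open Pool.Agent.Sch2 (Good good_one)

namespace FIN_

theorem pow2 (h1 : T_STP) (x : ℕ) : P ∅ (2 ^ x) x := by
  induction x with
  | zero => exact ⟨{1}, good_one.mono (by norm_num), by simp, by simp⟩
  | succ x ih =>
    have h2 : 2 ^ (x + 1) = 2 ^ x + 2 ^ x := by ring
    have h0 : 1 ≤ 2 ^ x := Nat.one_le_two_pow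
    have h3 := h1 ∅ ∅ (2 ^ (x + 1)) (2 ^ x) x h0 (by omega) (by simp) (by simp) (by simp)
      (Or.inr (by omega)) ih
    simpa using h3

end FIN_

open FIN_ LIN_ in
theorem p_FIN (h1 : T_STP) (h2 : T_IND) (h3 : T_SYS) : T_FIN := by
  obtain ⟨C, hC⟩ := h2
  refine ⟨C * 500, fun n hn => ?_⟩
  have hne : {r | ∃ a, IsChain n r a}.Nonempty := by
    obtain ⟨⟨a, ha⟩, -⟩ := Pool.Agent.SchK.exists_binary n hn
    exact ⟨_, a, ha⟩
  obtain ⟨a, ha⟩ : ∃ a, IsChain n (len n) a := Nat.sInf_mem hne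
  have hlog : Nat.log 2 n ≤ len n := by
    have := ha.log_le le_rfl
    rwa [ha.2.1] at this
  have hnd : nd a (len n) ≤ 4 * (len n - Nat.log 2 n) := by
    have := ha.nd_le le_rfl
    rwa [ha.2.1] at this
  obtain ⟨m, g, ρ, e, hm, hS, hg⟩ := h3 n (len n) a ha
  obtain ⟨s, hs⟩ : ∃ s, s = len n - Nat.log 2 n := ⟨_, rfl⟩
  rw [← hs] at hnd ⊢
  rcases Nat.eq_zero_or_pos s with h0 | h0
  · have hm0 : m = 0 := by omega
    subst hm0
    rw [hS.zero, mul_one] at hg
    obtain ⟨x, hx⟩ : ∃ x, n = 2 ^ x := ⟨_, hg⟩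
    obtain ⟨X, hX1, hX2, -⟩ := pow2 h1 x
    rw [← hx] at hX1 hX2
    have h4 := hX1.len_le hX2
    have h5 : Nat.log 2 n = x := by
      rw [hx]
      exact Nat.log_pow (by norm_num) x
    omega
  · obtain ⟨X, hX1, hX2, -⟩ := hC m g ρ e hS
    rw [← hg] at hX1 hX2
    have h4 := hX1.len_le hX2
    have h5 : (m + 1) ^ 3 ≤ (5 * s) ^ 3 := Nat.pow_le_pow_left (by omega) 3
    have h7 : Nat.log 2 (m + 1) ≤ Nat.log 2 s + 3 := by
      have h8 : m + 1 ≤ s * 2 * 2 * 2 := by omega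
      refine (Nat.log_mono_right h8).trans (le_of_eq ?_)
      rw [Nat.log_mul_base (by norm_num) (by omega), Nat.log_mul_base (by norm_num) (by omega),
        Nat.log_mul_base (by norm_num) (by omega)]
    have h6 : C * ((m + 1) ^ 3 * (Nat.log 2 (m + 1) + 1)) ≤
        C * 500 * (s ^ 3 * (Nat.log 2 s + 1)) := by
      calc C * ((m + 1) ^ 3 * (Nat.log 2 (m + 1) + 1))
          ≤ C * ((5 * s) ^ 3 * (4 * (Nat.log 2 s + 1))) := by
            gcongr
            omega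
        _ = C * 500 * (s ^ 3 * (Nat.log 2 s + 1)) := by ring
    omega

end Pool.Agent.SchP
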