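import Pool.Agent.SchP.P_ST1

/-!
# SchP, target `T_IND`: induction on the levels
-/

set_option autoImplicit false

namespace Pool.Agent.SchP

open Finset

namespace IND_

theorem num {C₂ K N l β : ℕ} (hK : K = 2 * C₂ + 16) (hl : l = Nat.log 2 N + 1)
    (hβ : β = K * l) : 33 * (C₂ + 1) * β * N ^ 3 ≤ 2 ^ β := by
  have h1 : C₂ + 1 ≤ 2 ^ C₂ := Nat.lt_two_pow_self
  have h2 : N ≤ 2 ^ l := by
    rw [hl]
    exact (Nat.lt_pow_succ_log_self (by norm_num) N).le
  have h3 : K ≤ 2 ^ (C₂ + 4) := by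
    rw [pow_add]
    omega
  have h4 : N ^ 3 ≤ 2 ^ (3 * l) := by
    calc N ^ 3 ≤ (2 ^ l) ^ 3 := Nat.pow_le_pow_left h2 3
      _ = 2 ^ (3 * l) := by rw [← pow_mul, mul_comm]
  have h5 : l ≤ 2 ^ l := Nat.lt_two_pow_self.le
  calc 33 * (C₂ + 1) * β * N ^ 3 = 33 * (C₂ + 1) * K * l * N ^ 3 := by
        rw [hβ]
        ring
    _ ≤ 2 ^ 6 * 2 ^ C₂ * 2 ^ (C₂ + 4) * 2 ^ l * 2 ^ (3 * l) := by
        gcongr
        norm_num
    _ = 2 ^ (6 + C₂ + (C₂ + 4) + l + 3 * l) := by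
        rw [← pow_add, ← pow_add, ← pow_add, ← pow_add]
    _ ≤ 2 ^ β := by
        refine Nat.pow_le_pow_right (by norm_num) ?_
        rw [hβ, hK]
        obtain ⟨n, rfl⟩ : ∃ n, l = n + 1 := ⟨l - 1, by omega⟩
        nlinarith [Nat.zero_le (C₂ * n)]

theorem Kc_sum (m : ℕ) (ρ : ℕ → ℕ) (n : ℕ) : ∑ c ∈ range n, Kc m ρ c ≤ 2 * m + 1 := by
  have h1 : ∀ c, Kc m ρ c = ∑ j ∈ range (2 * m + 1), (if ρ j = c then 1 else 0) := by
    intro c
    rw [Kc, card_filter]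
  rw [sum_congr rfl fun c _ => h1 c, sum_comm]
  calc ∑ j ∈ range (2 * m + 1), ∑ c ∈ range n, (if ρ j = c then 1 else 0)
      ≤ ∑ _j ∈ range (2 * m + 1), 1 := by
        refine sum_le_sum fun j _ => ?_
        rw [sum_ite_eq]
        split_ifs <;> omega
    _ = 2 * m + 1 := by simp

theorem Kc_le (m : ℕ) (ρ : ℕ → ℕ) (c : ℕ) : Kc m ρ c ≤ 2 * m + 1 := by
  refine (card_filter_le _ _).trans ?_
  rw [card_range]

theorem Ybd {m N β b : ℕ} (hN : N = m + 1) (hβ : 1 ≤ β) (hb : b ≤ β * N) :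
    b + (2 * m + 1) * (b + 1) + 3 ≤ 8 * β * N ^ 2 := by
  have hN1 : 1 ≤ N := by omega
  have h1 : (2 * m + 1) ≤ 2 * N := by omega
  have h2 : β * N ≤ β * N ^ 2 := by
    refine Nat.mul_le_mul_left _ ?_
    nlinarith
  have h3 : 1 ≤ β * N ^ 2 := Nat.succ_le_of_lt (by positivity)
  have h4 : N ≤ β * N ^ 2 := by nlinarith
  have h5 : (2 * m + 1) * (b + 1) ≤ 2 * N * (β * N + 1) := Nat.mul_le_mul h1 (by omega)
  have h6 : 2 * N * (β * N + 1) = 2 * (β * N ^ 2) + 2 * N := by ring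
  have h7 : 8 * β * N ^ 2 = 8 * (β * N ^ 2) := by ring
  omega

end IND_

/-- the cost of a level -/
def cost (m N β : ℕ) (ρ : ℕ → ℕ) (c : ℕ) : ℕ := 2 + 2 * N * (2 * (Kc m ρ c * (β * N + 1)) + 3)

open LIN_ ST1_ IND_ in
theorem p_IND (h1 : T_ST1) (h2 : T_ST2) (h3 : T_ZER) : T_IND := by
  obtain ⟨C₂, h2⟩ := h2
  obtain ⟨K, hK⟩ : ∃ K, K = 2 * C₂ + 16 := ⟨_, rfl⟩
  refine ⟨24 * K, fun m g ρ e hS => ?_⟩
  obtain ⟨N, hN⟩ : ∃ N, N = m + 1 := ⟨_, rfl⟩
  obtain ⟨l, hl⟩ : ∃ l, l = Nat.log 2 N + 1 := ⟨_, rfl⟩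
  obtain ⟨β, hβ⟩ : ∃ β, β = K * l := ⟨_, rfl⟩
  have hN1 : 1 ≤ N := by omega
  have hβ1 : 1 ≤ β := by
    rw [hβ, hK]
    exact Nat.succ_le_of_lt (Nat.mul_pos (by omega) (by omega))
  have hnum := num hK hl hβ
  have claim : ∀ c ≤ m, ∀ (d : ℕ) (S : Finset ℕ), 1 ≤ d → S.card ≤ 2 * (m - c) →
      (∀ v ∈ S, v < d) → (∀ v ∈ insert d S, Rep m g ρ e c (2 ^ (β * (m - c))) v) →
      P S d (Nat.log 2 d + ∑ c' ∈ range (c + 1), cost m N β ρ c') := by
    intro c
    induction c with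
    | zero =>
      intro _ d S hd hcard hlt hrep
      refine P_mono (h3 m g ρ e hS _ d S hd hlt hrep) Subset.rfl ?_
      rw [Nat.log_pow (by norm_num), zero_add, sum_range_one, cost]
      obtain ⟨b, hb⟩ : ∃ b, b = β * (m - 0) := ⟨_, rfl⟩
      rw [← hb]
      have h4 : b ≤ β * N := by
        rw [hb]
        exact Nat.mul_le_mul_left _ (by omega)
      have h6 : (S.card + 1) * (Kc m ρ 0 * (b + 1)) ≤ 2 * N * (Kc m ρ 0 * (β * N + 1)) :=
        Nat.mul_le_mul (by omega) (Nat.mul_le_mul_left _ (by omega))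
      have h7 : 2 * N * (2 * (Kc m ρ 0 * (β * N + 1)) + 3) =
          2 * (2 * N * (Kc m ρ 0 * (β * N + 1))) + 6 * N := by ring
      omega
    | succ c ih =>
      intro hc d S hd hcard hlt hrep
      obtain ⟨b, hb⟩ : ∃ b, b = β * (m - (c + 1)) := ⟨_, rfl⟩
      rw [← hb] at hrep
      have hb1 : b ≤ β * N := by
        rw [hb]
        exact Nat.mul_le_mul_left _ (by omega)
      have hb2 : β * (m - c) = b + β := by
        rw [hb]
        have : m - c = (m - (c + 1)) + 1 := by omega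
        rw [this]
        ring
      obtain ⟨V, hV⟩ : ∃ V, V = Kc m ρ (c + 1) * (Nat.log 2 (2 ^ b) + 1) := ⟨_, rfl⟩
      obtain ⟨Y, hY⟩ : ∃ Y, Y = Nat.log 2 (2 ^ b) + V + 2 := ⟨_, rfl⟩
      obtain ⟨S1, d1, a1, a2, a3, a4, a5, a6⟩ := h1 m g ρ e hS c (by omega) (2 ^ b) V Y d S hV hY
        hd hlt hrep
      obtain ⟨κ, S2, d2, b0, b1, b2, b3, b4, b5, b6⟩ := h2 m g ρ e hS c (by omega) (2 ^ b) V Y d1
        S1 Nat.one_le_two_pow hY a1 a4 a5
      have hlog : Nat.log 2 (2 ^ b) = b := Nat.log_pow (by norm_num) b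
      rw [hlog] at hV hY
      have hVb : V ≤ (2 * m + 1) * (b + 1) := by
        rw [hV]
        exact Nat.mul_le_mul_right _ (Kc_le m ρ (c + 1))
      have hYb : Y + 1 ≤ 8 * β * N ^ 2 := by
        have := Ybd hN hβ1 hb1
        omega
      have hκ : 2 ^ b + 2 * κ ≤ 2 ^ (β * (m - c)) := by
        have h4 : (S1.card + 1) * 2 ^ b * (Y + 1) ≤ 2 * N * 2 ^ b * (8 * β * N ^ 2) :=
          Nat.mul_le_mul (Nat.mul_le_mul_right _ (by omega)) hYb
        have h5 : κ ≤ C₂ * (2 * N * 2 ^ b * (8 * β * N ^ 2)) :=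
          b0.trans (Nat.mul_le_mul_left _ h4)
        have h6 : 1 ≤ β * N ^ 3 := Nat.succ_le_of_lt (by positivity)
        calc 2 ^ b + 2 * κ ≤ 2 ^ b + 2 * (C₂ * (2 * N * 2 ^ b * (8 * β * N ^ 2))) := by omega
          _ = 2 ^ b * (1 + 32 * C₂ * (β * N ^ 3)) := by ring
          _ ≤ 2 ^ b * (33 * (C₂ + 1) * β * N ^ 3) := by
              refine Nat.mul_le_mul_left _ ?_
              have h7 : 33 * (C₂ + 1) * β * N ^ 3 =
                  33 * C₂ * (β * N ^ 3) + 33 * (β * N ^ 3) := by ring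
              have h8 : 32 * C₂ * (β * N ^ 3) ≤ 33 * C₂ * (β * N ^ 3) := by gcongr; norm_num
              omega
          _ ≤ 2 ^ b * 2 ^ β := Nat.mul_le_mul_left _ hnum
          _ = 2 ^ (β * (m - c)) := by rw [hb2, pow_add]
      have h4 := ih (by omega) d2 S2 b1 (by omega) b4 (fun v hv => Rep_mono (b5 v hv) hκ)
      have h5 := b6 _ h4
      rw [add_assoc, add_assoc] at h5
      have h6 := a6 _ h5
      refine P_mono h6 Subset.rfl ?_
      have hVN : V ≤ Kc m ρ (c + 1) * (β * N + 1) := by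
        rw [hV]
        exact Nat.mul_le_mul_left _ (by omega)
      obtain ⟨V', hV'⟩ : ∃ V', V' = Kc m ρ (c + 1) * (β * N + 1) := ⟨_, rfl⟩
      rw [← hV'] at hVN
      have h7 : (S1.card + 1) * (V + 3) ≤ 2 * N * (V' + 3) :=
        Nat.mul_le_mul (by omega) (by omega)
      have h8 : (S.card + 1) * V ≤ 2 * N * V' := Nat.mul_le_mul (by omega) hVN
      have h9 : 2 * N * (2 * V' + 3) = 2 * N * (V' + 3) + 2 * N * V' := by ring
      rw [sum_range_succ _ (c + 1), cost, ← hV']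
      omega
  have htot : ∑ c' ∈ range (m + 1), cost m N β ρ c' ≤ 24 * K * (N ^ 3 * l) := by
    have h4 := Kc_sum m ρ (m + 1)
    have h5 : ∑ c' ∈ range (m + 1), cost m N β ρ c' =
        (∑ c' ∈ range (m + 1), Kc m ρ c') * (4 * N * (β * N + 1)) + N * (2 + 6 * N) := by
      unfold cost
      rw [sum_mul, hN, ← smul_eq_mul (m + 1), ← card_range (m + 1), ← sum_const, card_range,
        ← sum_add_distrib]
      exact sum_congr rfl fun c _ => by ring
    rw [h5]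
    have h6 : (∑ c' ∈ range (m + 1), Kc m ρ c') * (4 * N * (β * N + 1)) ≤
        2 * N * (4 * N * (β * N + 1)) := Nat.mul_le_mul_right _ (by omega)
    have h7 : 24 * K * (N ^ 3 * l) = 24 * (β * N ^ 3) := by
      rw [hβ]
      ring
    have h8 : N ^ 2 ≤ β * N ^ 3 := by
      calc N ^ 2 = 1 * N ^ 2 * 1 := by ring
        _ ≤ β * N ^ 2 * N := by gcongr
        _ = β * N ^ 3 := by ring
    have h9 : N ≤ N ^ 2 := by nlinarith
    have h10 : 2 * N * (4 * N * (β * N + 1)) = 8 * (β * N ^ 3) + 8 * N ^ 2 := by ring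
    have h11 : N * (2 + 6 * N) = 2 * N + 6 * N ^ 2 := by ring
    omega
  have hgpos : ∀ c ≤ m, 1 ≤ g c := by
    intro c
    induction c using Nat.strong_induction_on with
    | _ c ih =>
      intro hc
      rcases c with _ | c
      · rw [hS.zero]
      · rw [hS.eq c (by omega)]
        have h1 := hS.le0 c (by omega)
        have h2 := ih (ρ (2 * c)) (by omega) (by omega)
        have h3 : 1 ≤ 2 ^ e (2 * c) * g (ρ (2 * c)) := Nat.succ_le_of_lt (by positivity)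
        omega
  have hfin := claim m le_rfl (2 ^ e (2 * m) * g m) ∅
    (Nat.succ_le_of_lt (Nat.mul_pos (by positivity) (hgpos m le_rfl))) (by simp) (by simp)
    (fun v hv => by
      have hv' : v = 2 ^ e (2 * m) * g m := by simpa using hv
      have hm : 2 * m ∈ range (2 * m + 1) := mem_range.2 (by omega)
      refine ⟨fun j => if j = 2 * m then 1 else 0, ?_, ?_, ?_⟩
      · rw [sum_ite_eq', if_pos hm]
        exact Nat.one_le_two_pow
      · intro j hj hj2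
        have : j ≠ 2 * m := by
          rintro rfl
          rw [hS.top] at hj2
          omega
        exact if_neg this
      · simp only [ite_mul, one_mul, zero_mul]
        rw [sum_ite_eq', if_pos hm, hS.top]
        exact hv')
  refine P_mono hfin Subset.rfl ?_
  have e1 : (m + 1) ^ 3 * (Nat.log 2 (m + 1) + 1) = N ^ 3 * l := by rw [hl, hN]
  rw [e1]
  omega

end Pool.Agent.SchP
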