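import Pool.Agent.SchP.Targets

/-!
# SchP, target `T_LNS`: the line lemma for sets
-/

set_option autoImplicit false

namespace Pool.Agent.SchP

open Finset
open Pool.Agent.SchK (ones)

namespace LNS_

theorem P_mono {S S' : Finset ℕ} {d k k' : ℕ} (h : P S d k) (hS : S' ⊆ S) (hk : k ≤ k') :
    P S' d k' := by
  obtain ⟨X, h1, h2, h3⟩ := h
  exact ⟨X, h1.mono (by omega), h2, fun v hv hv1 => h3 v (hS hv) hv1⟩

end LNS_

open LNS_ in
theorem p_LNS (h : T_LIN) : T_LNS := by
  intro g q J V k d S S' hg hq hd hS hrep hP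
  choose! γ L h1 h2 h3 h4 h5 using hrep
  have hdm : d ∈ insert d S := mem_insert_self d S
  have e : Fin S.card ≃ S := S.equivFin.symm
  have hSi : ∀ i : Fin S.card, (e i : ℕ) ∈ insert d S := fun i => mem_insert_of_mem (e i).2
  have hv : (univ.image fun i : Fin S.card => γ (e i) * g + L (e i)) = S := by
    ext v
    simp only [mem_image, mem_univ, true_and]
    constructor
    · rintro ⟨i, rfl⟩
      rw [← h1 _ (hSi i)]
      exact (e i).2
    · intro hv
      refine ⟨e.symm ⟨v, hv⟩, ?_⟩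
      rw [Equiv.apply_symm_apply]
      exact (h1 v (mem_insert_of_mem hv)).symm
  have key := h S.card g q J V k (γ d) (L d) (fun i => γ (e i)) (fun i => L (e i)) hg hq
    (by rw [← h1 d hdm]; exact hd) (h2 d hdm) (h3 d hdm) (h4 d hdm)
    (fun i => by rw [← h1 d hdm, ← h1 _ (hSi i)]; exact hS _ (e i).2)
    (fun i => ⟨h2 _ (hSi i), h3 _ (hSi i), h4 _ (hSi i)⟩)
    (P_mono hP (by
      intro v hv
      rcases mem_insert.1 hv with rfl | hv
      · exact h5 d hdm
      · obtain ⟨i, -, rfl⟩ := mem_image.1 hv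
        exact h5 _ (hSi i)) le_rfl)
  rw [hv, ← h1 d hdm] at key
  exact key

end Pool.Agent.SchP
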