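import Pool.Agent.SchP.Targets

/-!
# SchP, target `T_SPL`: splitting of a sum of positions
-/

set_option autoImplicit false

namespace Pool.Agent.SchP

open Finset
open Pool.Agent.SchK (ones ones_zero ones_add_le)

namespace SPL_

theorem g_pos {m : ℕ} {g ρ e : ℕ → ℕ} (h : Sys m g ρ e) : ∀ c ≤ m, 1 ≤ g c := by
  intro c
  induction c using Nat.strong_induction_on with
  | _ c ih =>
    intro hc
    rcases c with _ | c
    · rw [h.zero]
    · rw [h.eq c (by omega)]
      have h1 := h.le0 c (by omega)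
      have h2 := ih (ρ (2 * c)) (by omega) (by omega)
      have h3 : 1 ≤ 2 ^ e (2 * c) * g (ρ (2 * c)) := Nat.succ_le_of_lt (by positivity)
      omega

theorem ones_sum_le (s : Finset ℕ) (f : ℕ → ℕ) : ones (∑ j ∈ s, f j) ≤ ∑ j ∈ s, ones (f j) := by
  classical
  induction s using Finset.induction_on with
  | empty => simp [ones_zero]
  | insert j s hj ih =>
    rw [sum_insert hj, sum_insert hj]
    exact (ones_add_le _ _).trans (by omega)

end SPL_

open SPL_ in
theorem p_SPL (h : T_ONE) : T_SPL := by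
  intro m g ρ e hS
  refine ⟨g_pos hS, fun c hc M v ⟨μ, hμ1, hμ2, hμ3⟩ => ?_⟩
  have hg := g_pos hS c hc
  obtain ⟨R, hR⟩ : ∃ R, R = range (2 * m + 1) := ⟨_, rfl⟩
  rw [← hR] at hμ1 hμ2 hμ3
  have hle : ∀ j ∈ R, μ j ≤ M := fun j hj =>
    (single_le_sum (f := μ) (fun i _ => Nat.zero_le _) hj).trans hμ1
  refine ⟨∑ j ∈ R.filter (fun j => ρ j = c), μ j * 2 ^ e j,
    ∑ j ∈ R.filter (fun j => ρ j < c), μ j * (2 ^ e j * g (ρ j)), ?_, ?_, ?_, ?_, ?_⟩
  · -- the sum
    rw [hμ3, sum_mul]
    have h1 : ∀ j ∈ R, μ j * (2 ^ e j * g (ρ j)) =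
        (if ρ j = c then μ j * 2 ^ e j * g c else 0) +
        (if ρ j < c then μ j * (2 ^ e j * g (ρ j)) else 0) := by
      intro j hj
      rcases lt_trichotomy (ρ j) c with h2 | h2 | h2
      · rw [if_neg (by omega), if_pos h2, zero_add]
      · rw [if_pos h2, if_neg (by omega), h2]
        ring
      · rw [if_neg (by omega), if_neg (by omega), hμ2 j hj h2]
        simp
    rw [sum_congr rfl h1, sum_add_distrib, sum_filter, sum_filter]
  · -- the bound for L
    calc ∑ j ∈ R.filter (fun j => ρ j < c), μ j * (2 ^ e j * g (ρ j))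
        ≤ ∑ j ∈ R.filter (fun j => ρ j < c), μ j * g c := by
          refine sum_le_sum fun j hj => ?_
          obtain ⟨h1, h2⟩ := mem_filter.1 hj
          rw [hR, mem_range] at h1
          exact Nat.mul_le_mul_left _ (hS.dom j (by omega) c h2 hc)
      _ ≤ ∑ j ∈ R, μ j * g c :=
          sum_le_sum_of_subset (filter_subset _ _)
      _ = (∑ j ∈ R, μ j) * g c := by rw [sum_mul]
      _ ≤ M * g c := Nat.mul_le_mul_right _ hμ1
  · -- the number of ones
    calc ones (∑ j ∈ R.filter (fun j => ρ j = c), μ j * 2 ^ e j)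
        ≤ ∑ j ∈ R.filter (fun j => ρ j = c), ones (μ j * 2 ^ e j) := ones_sum_le _ _
      _ ≤ ∑ j ∈ R.filter (fun j => ρ j = c), (Nat.log 2 M + 1) := by
          refine sum_le_sum fun j hj => ?_
          rw [mul_comm, h.2.2.1]
          have h1 := h.2.1 (μ j)
          have h2 : Nat.log 2 (μ j) ≤ Nat.log 2 M :=
            Nat.log_mono_right (hle j (mem_filter.1 hj).1)
          omega
      _ = Kc m ρ c * (Nat.log 2 M + 1) := by
          rw [sum_const, hR, smul_eq_mul, Kc]
  · intro hc0
    refine sum_eq_zero fun j hj => ?_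
    have := (mem_filter.1 hj).2
    omega
  · intro c' hc' r
    have h0 : 2 * c' ∈ R := by
      rw [hR, mem_range]
      omega
    have h1 : 2 * c' + 1 ∈ R := by
      rw [hR, mem_range]
      omega
    refine ⟨fun j => (if ρ j < c then μ j else 0) + (if j = 2 * c' then r else 0) +
      (if j = 2 * c' + 1 then r else 0), ?_, ?_, ?_⟩
    · rw [← hR, sum_add_distrib, sum_add_distrib, sum_ite_eq' R (2 * c'),
        sum_ite_eq' R (2 * c' + 1), if_pos h0, if_pos h1, ← sum_filter]
      have h2 : ∑ j ∈ R.filter (fun j => ρ j < c), μ j ≤ ∑ j ∈ R, μ j :=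
        sum_le_sum_of_subset (filter_subset _ _)
      omega
    · intro j hj hj2
      have h2 := hS.le0 c' (by omega)
      have h3 := hS.le1 c' (by omega)
      have h4 : ¬ ρ j < c := by omega
      have h5 : j ≠ 2 * c' := by
        rintro rfl
        omega
      have h6 : j ≠ 2 * c' + 1 := by
        rintro rfl
        omega
      simp only [h4, h5, h6, if_false]
    · rw [← hR]
      simp only [add_mul, ite_mul, zero_mul]
      rw [sum_add_distrib, sum_add_distrib, sum_ite_eq' R (2 * c'),
        sum_ite_eq' R (2 * c' + 1), if_pos h0, if_pos h1, ← sum_filter, hc',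
        hS.eq c' (by omega)]
      ring

end Pool.Agent.SchP
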