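import Pool.Agent.SchP.P_ST1

/-!
# SchP, target `T_ST2`: stage 2 of a level
-/

set_option autoImplicit false

namespace Pool.Agent.SchP

open Finset
open Pool.Agent.SchK (ones)

open LIN_ ST1_ in
theorem p_ST2 (h1 : T_LNS) (h2 : T_STK) (h0 : T_ONE) (h3 : T_SPL) : T_ST2 := by
  obtain ⟨C, hC⟩ := h2
  refine ⟨C, ?_⟩
  intro m g ρ e hS c hc M V Y d S hM hY hd hlt hth
  have hMY : M ≤ 2 ^ Y := by
    refine (Nat.lt_pow_succ_log_self (by norm_num : 1 < 2) M).le.trans ?_
    exact Nat.pow_le_pow_right (by norm_num) (by omega)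
  have hG1 : 1 ≤ g (c + 1) := (h3 m g ρ e hS).1 (c + 1) hc
  unfold Th at hth
  choose! γ L e1 e2 e3 e4 using hth
  obtain ⟨κ, hκ1, hκ2, hκ3⟩ := hC (S.card + 1) M Y ((insert d S).image γ) (by omega) hM hMY
    (card_image_le.trans (card_insert_le _ _)) (by
      intro x hx
      obtain ⟨v, hv, rfl⟩ := mem_image.1 hx
      exact e2 v hv)
  have hst : ∀ v ∈ insert d S, Stb κ M (γ v) := fun v hv => hκ3 _ (mem_image.2 ⟨v, hv, rfl⟩)
  have hκM : M < κ := by
    by_contra hc'
    push Not at hc'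
    have h5 := Nat.mod_lt (γ d) (show 0 < κ by omega)
    have h6 := Nat.mod_add_div (γ d) κ
    refine hst d (mem_insert_self d S) (κ - γ d % κ) (by omega) (by omega) ⟨γ d / κ + 1, ?_⟩
    rw [mul_add, mul_one]
    omega
  rcases Nat.lt_or_ge (κ * g (c + 1)) d with hdw | hdw
  · refine ⟨κ, (insert d S).image fun v => (γ v % κ) * g (c + 1) + L v, κ * g (c + 1), hκ2,
      Nat.succ_le_of_lt (by positivity), hdw.le, ?_, ?_, ?_, fun k hk => ?_⟩
    · exact card_image_le.trans (card_insert_le _ _)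
    · intro w hw
      obtain ⟨v, hv, rfl⟩ := mem_image.1 hw
      exact rem_lt hG1 hκ1 (e3 v hv) (hst v hv)
    · intro w hw
      rcases mem_insert.1 hw with rfl | hw
      · exact Rep_mul h3 hS hc κ
      · obtain ⟨v, hv, rfl⟩ := mem_image.1 hw
        have h5 : γ v % κ < κ := Nat.mod_lt _ (by omega)
        exact Rep_mono (e4 v hv (γ v % κ)) (by omega)
    · have h4 := h1 (g (c + 1)) κ M (V + 3) _ d S _ hG1 hκ1 hdw hlt
        (fun v hv => ⟨γ v, L v, e1 v hv, e3 v hv, hst v hv, by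
          have h5 := h0.2.1 (γ v / κ)
          have h8 : 2 ^ Nat.log 2 M ≤ κ :=
            (Nat.pow_log_le_self 2 (by omega)).trans hκM.le
          have h6 : γ v / κ ≤ 2 ^ (V + 2) := by
            refine (Nat.div_le_div (e2 v hv) h8 (by positivity)).trans (le_of_eq ?_)
            rw [hY, add_assoc, pow_add, Nat.mul_div_cancel_left _ (by positivity)]
          have h7 : Nat.log 2 (γ v / κ) ≤ Nat.log 2 (2 ^ (V + 2)) := Nat.log_mono_right h6
          rw [Nat.log_pow (by norm_num)] at h7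
          omega, mem_image.2 ⟨v, hv, rfl⟩⟩) hk
      refine P_mono h4 Subset.rfl ?_
      have h5 : Nat.log 2 (κ * g (c + 1)) ≤ Nat.log 2 d := Nat.log_mono_right hdw.le
      omega
  · refine ⟨κ, S, d, hκ2, hd, le_rfl, by omega, hlt, fun v hv => ?_,
      fun k hk => P_mono hk Subset.rfl (by omega)⟩
    have hvd : v ≤ d := by
      rcases mem_insert.1 hv with rfl | hv
      · exact le_rfl
      · exact (hlt v hv).le
    have e6 := e1 v hv
    have h5 : γ v ≤ κ := by
      refine Nat.le_of_mul_le_mul_right (c := g (c + 1)) ?_ (by omega)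
      omega
    have h6 := e4 v hv (γ v)
    rw [← e6] at h6
    exact Rep_mono h6 (by omega)

end Pool.Agent.SchP
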