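import Pool.Agent.SchP.Targets

/-!
# SchP, target `T_STK`: choice of the modulus
-/

set_option autoImplicit false

namespace Pool.Agent.SchP

open Finset

theorem p_STK (h : T_AVD) : T_STK := by
  obtain ⟨C, hC⟩ := h
  refine ⟨C, fun A M Y Γ hA hM hMY hcard hΓ => ?_⟩
  obtain ⟨p, hp1, hp2, hp3⟩ := hC (A * M) (Y + 1)
    ((Γ ×ˢ Icc 1 M).image fun x => x.1 + x.2) (Nat.succ_le_of_lt (by positivity)) (by omega)
    (by
      refine card_image_le.trans ?_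
      rw [card_product, Nat.card_Icc]
      exact Nat.mul_le_mul hcard (by omega))
    (fun x hx => by
      obtain ⟨⟨γ, t⟩, hγt, rfl⟩ := mem_image.1 hx
      obtain ⟨h1, h2⟩ := mem_product.1 hγt
      have h3 := hΓ γ h1
      obtain ⟨h4, h5⟩ := mem_Icc.1 h2
      have h6 : 2 ^ (Y + 1) = 2 ^ Y + 2 ^ Y := by ring
      show 1 ≤ γ + t ∧ γ + t ≤ 2 ^ (Y + 1)
      have h7 : t ≤ M := h5
      have h8 : 1 ≤ t := h4
      omega)
  refine ⟨p, hp1, hp2, fun γ hγ t ht1 ht2 => ?_⟩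
  exact hp3 (γ + t) (mem_image.2 ⟨(γ, t), mem_product.2 ⟨hγ, mem_Icc.2 ⟨ht1, ht2⟩⟩, rfl⟩)

end Pool.Agent.SchP
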