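import Pool.Agent.SchP.Targets

/-!
# SchP, target `T_STP`: one step of the main line
-/

set_option autoImplicit false

namespace Pool.Agent.SchP

open Finset
open Pool.Agent.Sch2 (Good)

namespace STP_

theorem split {v d' : ℕ} (h : d' < v) :
    2 ^ v - 1 = 2 ^ (v - d') * (2 ^ d' - 1) + (2 ^ (v - d') - 1) := by
  obtain ⟨u, rfl⟩ : ∃ u, v = d' + u := ⟨v - d', by omega⟩
  have h1 : d' + u - d' = u := by omega
  rw [h1]
  have h2 : 1 ≤ 2 ^ u := Nat.one_le_two_pow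
  have h3 : 1 ≤ 2 ^ d' := Nat.one_le_two_pow
  zify [h2, h3, Nat.one_le_two_pow (n := d' + u)]
  ring

/-- adding the numbers of a finite set of `v` -/
theorem add_all {X : Finset ℕ} {c d' u : ℕ} (hX : Good X c)
    (hs : ∀ j ≤ u, 2 ^ j * (2 ^ d' - 1) ∈ X) (T : Finset ℕ)
    (hT : ∀ v ∈ T, d' < v ∧ v - d' ≤ u ∧ 2 ^ (v - d') - 1 ∈ X) :
    ∃ X', X ⊆ X' ∧ Good X' (c + T.card) ∧ ∀ v ∈ T, 2 ^ v - 1 ∈ X' := by
  induction T using Finset.induction_on with
  | empty => exact ⟨X, Subset.rfl, by simpa using hX, by simp⟩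
  | insert v T hv ih =>
    obtain ⟨X', h1, h2, h3⟩ := ih fun w hw => hT w (mem_insert_of_mem hw)
    obtain ⟨h4, h5, h6⟩ := hT v (mem_insert_self v T)
    refine ⟨insert (2 ^ (v - d') * (2 ^ d' - 1) + (2 ^ (v - d') - 1)) X',
      h1.trans (subset_insert _ _), ?_, ?_⟩
    · rw [card_insert_of_notMem hv, ← add_assoc]
      exact h2.ins (h1 (hs _ h5)) (h1 h6)
    · intro w hw
      rcases mem_insert.1 hw with rfl | hw
      · rw [split h4]
        exact mem_insert_self _ _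
      · exact mem_insert_of_mem (h3 w hw)

end STP_

open STP_ in
theorem p_STP : T_STP := by
  intro S S' d d' k hd' hdd hS hlt hgt hd ⟨X', hX, hdX, hSX⟩
  obtain ⟨X, h1, h2, h3⟩ := hX.shift hdX (d - d')
  have hmem : ∀ w : ℕ, (w ∈ S' ∨ w = d') → 1 ≤ w → 2 ^ w - 1 ∈ X := by
    rintro w (hw | rfl) h
    · exact h1 (hSX w hw h)
    · exact h1 hdX
  have h4 : 2 ^ (d - d') - 1 ∈ X := hmem _ hd (by omega)
  obtain ⟨Z, hZ1, hZ2, hZ3⟩ := add_all (X := insert (2 ^ (d - d') * (2 ^ d' - 1) +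
      (2 ^ (d - d') - 1)) X) (c := d' + k + (d - d') + 1) (d' := d') (u := d - d')
    (h2.ins (h3 _ le_rfl) h4) (fun j hj => mem_insert_of_mem (h3 j hj))
    (S.filter (fun v => d' < v)) (fun v hv => by
      obtain ⟨hv1, hv2⟩ := mem_filter.1 hv
      have h5 := hS v hv1
      exact ⟨hv2, by omega, mem_insert_of_mem (hmem _ (hgt v hv1 hv2) (by omega))⟩)
  refine ⟨Z, ?_, ?_, ?_⟩
  · have e1 : d' + k + (d - d') + 1 + (S.filter (fun v => d' < v)).card =
        d + (k + 1 + (S.filter (fun v => d' < v)).card) := by omega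
    rw [← e1]
    exact hZ2
  · rw [split hdd]
    exact hZ1 (mem_insert_self _ _)
  · intro v hv hv1
    rcases lt_trichotomy v d' with h | h | h
    · exact hZ1 (mem_insert_of_mem (h1 (hSX v (hlt v hv h) hv1)))
    · rw [h]
      exact hZ1 (mem_insert_of_mem (h1 hdX))
    · exact hZ3 v (mem_filter.2 ⟨hv, h⟩)

end Pool.Agent.SchP
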