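import Pool.Agent.SchP.Targets

/-!
# SchP, target `T_SYS`: the runs of an addition chain
-/

set_option autoImplicit false

namespace Pool.Agent.SchP

open Finset
open Pool.Agent.SchK (IsChain nd nd_zero nd_succ_of_eq nd_succ_of_ne)

namespace SYS_

/-- the runs of the first `r` steps -/
structure Pre (a : ℕ → ℕ) (r m : ℕ) (g ρ e : ℕ → ℕ) : Prop where
  zero : g 0 = 1
  eq : ∀ c < m, g (c + 1) = 2 ^ e (2 * c) * g (ρ (2 * c)) + 2 ^ e (2 * c + 1) * g (ρ (2 * c + 1))
  le0 : ∀ c < m, ρ (2 * c) ≤ c
  le1 : ∀ c < m, ρ (2 * c + 1) ≤ c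
  dom : ∀ j < 2 * m, ∀ c, ρ j < c → c ≤ m → 2 ^ e j * g (ρ j) ≤ g c
  rep : ∀ i ≤ r, ∃ c y, c ≤ m ∧ a i = 2 ^ y * g c ∧ ∀ c', c < c' → c' ≤ m → a i ≤ g c'
  last : ∃ y, a r = 2 ^ y * g m

theorem pre_le {a : ℕ → ℕ} {r m : ℕ} {g ρ e : ℕ → ℕ} (h : Pre a r m g ρ e) : g m ≤ a r := by
  obtain ⟨y, hy⟩ := h.last
  rw [hy]
  exact Nat.le_mul_of_pos_left _ (by positivity)

theorem pos_lt {a : ℕ → ℕ} {r m : ℕ} {g ρ e : ℕ → ℕ} (h : Pre a r m g ρ e) {j : ℕ}
    (hj : j < 2 * m) : ρ j < m := by
  rcases Nat.even_or_odd' j with ⟨c, rfl | rfl⟩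
  · have := h.le0 c (by omega)
    omega
  · have := h.le1 c (by omega)
    omega

theorem step {n r : ℕ} {a : ℕ → ℕ} (h : IsChain n r a) : ∀ r' ≤ r, ∃ (m : ℕ) (g ρ e : ℕ → ℕ),
    m ≤ nd a r' ∧ Pre a r' m g ρ e := by
  intro r'
  induction r' with
  | zero =>
    intro _
    refine ⟨0, fun _ => 1, fun _ => 0, fun _ => 0, Nat.zero_le _, rfl, ?_, ?_, ?_, ?_, ?_, ?_⟩
    · intro c hc
      omega
    · intro c hc
      omega
    · intro c hc
      omega
    · intro j hj
      omega
    · intro i hi
      obtain rfl : i = 0 := by omega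
      refine ⟨0, 0, le_rfl, by simp [h.1], fun c' h1 h2 => by omega⟩
    · exact ⟨0, by simp [h.1]⟩
  | succ r' ih =>
    intro hr
    obtain ⟨m, g, ρ, e, hm, hP⟩ := ih (by omega)
    have hlt : ∀ i ≤ r', a i < a (r' + 1) := fun i hi => h.2.2.1 i (r' + 1) (by omega) hr
    by_cases hd : a (r' + 1) = 2 * a r'
    · refine ⟨m, g, ρ, e, by rw [nd_succ_of_eq hd]; exact hm, hP.zero, hP.eq, hP.le0, hP.le1,
        hP.dom, ?_, ?_⟩
      · intro i hi
        rcases Nat.lt_or_ge i (r' + 1) with h1 | h1
        · exact hP.rep i (by omega)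
        · obtain rfl : i = r' + 1 := by omega
          obtain ⟨y, hy⟩ := hP.last
          refine ⟨m, y + 1, le_rfl, ?_, fun c' h1 h2 => by omega⟩
          rw [hd, hy]
          ring
      · obtain ⟨y, hy⟩ := hP.last
        refine ⟨y + 1, ?_⟩
        rw [hd, hy]
        ring
    · obtain ⟨i, j, hi, hj, hij⟩ := h.2.2.2 (r' + 1) (by omega) hr
      obtain ⟨ci, yi, hci, hai, hdi⟩ := hP.rep i (by omega)
      obtain ⟨cj, yj, hcj, haj, hdj⟩ := hP.rep j (by omega)
      obtain ⟨g', hg'⟩ : ∃ g' : ℕ → ℕ, g' = fun c => if c = m + 1 then a (r' + 1) else g c :=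
        ⟨_, rfl⟩
      obtain ⟨ρ', hρ'⟩ : ∃ ρ' : ℕ → ℕ, ρ' = fun x => if x = 2 * m then ci else
        if x = 2 * m + 1 then cj else ρ x := ⟨_, rfl⟩
      obtain ⟨e', he'⟩ : ∃ e' : ℕ → ℕ, e' = fun x => if x = 2 * m then yi else
        if x = 2 * m + 1 then yj else e x := ⟨_, rfl⟩
      have g1 : g' (m + 1) = a (r' + 1) := by
        rw [hg']
        simp
      have g2 : ∀ c ≤ m, g' c = g c := by
        intro c hc
        rw [hg']
        simp only
        rw [if_neg (by omega)]
      have r1 : ρ' (2 * m) = ci := by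
        rw [hρ']
        simp
      have r2 : ρ' (2 * m + 1) = cj := by
        rw [hρ']
        simp
      have r3 : ∀ x < 2 * m, ρ' x = ρ x := by
        intro x hx
        rw [hρ']
        simp only
        rw [if_neg (by omega), if_neg (by omega)]
      have s1 : e' (2 * m) = yi := by
        rw [he']
        simp
      have s2 : e' (2 * m + 1) = yj := by
        rw [he']
        simp
      have s3 : ∀ x < 2 * m, e' x = e x := by
        intro x hx
        rw [he']
        simp only
        rw [if_neg (by omega), if_neg (by omega)]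
      refine ⟨m + 1, g', ρ', e', by rw [nd_succ_of_ne hd]; omega, ?_, ?_, ?_, ?_, ?_, ?_, ?_⟩
      · rw [g2 0 (by omega)]
        exact hP.zero
      · intro c hc
        rcases Nat.lt_or_ge c m with h1 | h1
        · have h2 := hP.le0 c h1
          have h3 := hP.le1 c h1
          rw [g2 (c + 1) (by omega), s3 _ (by omega), s3 _ (by omega), r3 _ (by omega),
            r3 _ (by omega), g2 _ (by omega), g2 _ (by omega)]
          exact hP.eq c h1
        · obtain rfl : c = m := by omega
          rw [g1, s1, s2, r1, r2, g2 _ hci, g2 _ hcj, ← hai, ← haj]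
          exact hij
      · intro c hc
        rcases Nat.lt_or_ge c m with h1 | h1
        · rw [r3 _ (by omega)]
          exact hP.le0 c h1
        · obtain rfl : c = m := by omega
          rw [r1]
          exact hci
      · intro c hc
        rcases Nat.lt_or_ge c m with h1 | h1
        · rw [r3 _ (by omega)]
          exact hP.le1 c h1
        · obtain rfl : c = m := by omega
          rw [r2]
          exact hcj
      · intro x hx c hc1 hc2
        rcases Nat.lt_or_ge x (2 * m) with h1 | h1
        · have h2 := pos_lt hP h1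
          rw [r3 x h1] at hc1 ⊢
          rw [s3 x h1, g2 _ (by omega)]
          rcases Nat.lt_or_ge c (m + 1) with h3 | h3
          · rw [g2 c (by omega)]
            exact hP.dom x h1 c hc1 (by omega)
          · obtain rfl : c = m + 1 := by omega
            rw [g1]
            have h4 := hP.dom x h1 m h2 le_rfl
            have h5 := pre_le hP
            have h6 := hlt r' le_rfl
            omega
        · rcases Nat.lt_or_ge x (2 * m + 1) with h2 | h2
          · obtain rfl : x = 2 * m := by omega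
            rw [r1] at hc1 ⊢
            rw [s1, g2 _ hci, ← hai]
            rcases Nat.lt_or_ge c (m + 1) with h3 | h3
            · rw [g2 c (by omega)]
              exact hdi c hc1 (by omega)
            · obtain rfl : c = m + 1 := by omega
              rw [g1]
              exact (hlt i (by omega)).le
          · obtain rfl : x = 2 * m + 1 := by omega
            rw [r2] at hc1 ⊢
            rw [s2, g2 _ hcj, ← haj]
            rcases Nat.lt_or_ge c (m + 1) with h3 | h3
            · rw [g2 c (by omega)]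
              exact hdj c hc1 (by omega)
            · obtain rfl : c = m + 1 := by omega
              rw [g1]
              exact (hlt j (by omega)).le
      · intro x hx
        rcases Nat.lt_or_ge x (r' + 1) with h1 | h1
        · obtain ⟨c, y, h2, h3, h4⟩ := hP.rep x (by omega)
          refine ⟨c, y, by omega, by rw [g2 c h2]; exact h3, fun c' h5 h6 => ?_⟩
          rcases Nat.lt_or_ge c' (m + 1) with h7 | h7
          · rw [g2 c' (by omega)]
            exact h4 c' h5 (by omega)
          · obtain rfl : c' = m + 1 := by omega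
            rw [g1]
            exact (hlt x (by omega)).le
        · obtain rfl : x = r' + 1 := by omega
          exact ⟨m + 1, 0, le_rfl, by rw [g1]; ring, fun c' h1 h2 => by omega⟩
      · exact ⟨0, by rw [g1]; ring⟩

end SYS_

open SYS_ in
theorem p_SYS : T_SYS := by
  intro n r a h
  obtain ⟨m, g, ρ, e, hm, hP⟩ := step h r le_rfl
  obtain ⟨y, hy⟩ := hP.last
  obtain ⟨ρ', hρ'⟩ : ∃ ρ' : ℕ → ℕ, ρ' = fun x => if x = 2 * m then m else ρ x := ⟨_, rfl⟩
  obtain ⟨e', he'⟩ : ∃ e' : ℕ → ℕ, e' = fun x => if x = 2 * m then y else e x := ⟨_, rfl⟩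
  have r1 : ρ' (2 * m) = m := by
    rw [hρ']
    simp
  have r3 : ∀ x < 2 * m, ρ' x = ρ x := by
    intro x hx
    rw [hρ']
    simp only
    rw [if_neg (by omega)]
  have s1 : e' (2 * m) = y := by
    rw [he']
    simp
  have s3 : ∀ x < 2 * m, e' x = e x := by
    intro x hx
    rw [he']
    simp only
    rw [if_neg (by omega)]
  refine ⟨m, g, ρ', e', hm, ⟨hP.zero, ?_, ?_, ?_, r1, ?_⟩, ?_⟩
  · intro c hc
    rw [s3 _ (by omega), s3 _ (by omega), r3 _ (by omega), r3 _ (by omega)]
    exact hP.eq c hc
  · intro c hc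
    rw [r3 _ (by omega)]
    exact hP.le0 c hc
  · intro c hc
    rw [r3 _ (by omega)]
    exact hP.le1 c hc
  · intro j hj c hc1 hc2
    rcases Nat.lt_or_ge j (2 * m) with h1 | h1
    · rw [r3 j h1] at hc1 ⊢
      rw [s3 j h1]
      exact hP.dom j h1 c hc1 hc2
    · obtain rfl : j = 2 * m := by omega
      rw [r1] at hc1
      omega
  · rw [s1, ← hy]
    exact h.2.1.symm

end Pool.Agent.SchP
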