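import Pool.Agent.SchP.Targets

/-!
# SchP, target `T_YST`: stability modulo a power of two
-/

set_option autoImplicit false

namespace Pool.Agent.SchP

open Pool.Agent.SchK

theorem p_YST (h : T_ONE) : T_YST := by
  intro Y M V γ hγ hY t ht1 htM ⟨w, hw⟩
  obtain ⟨a, ha⟩ : ∃ a, a = Nat.log 2 M + 1 := ⟨_, rfl⟩
  have h1 : t < 2 ^ a := by
    rw [ha]
    exact lt_of_le_of_lt htM (Nat.lt_pow_succ_log_self (by norm_num) M)
  obtain ⟨b, hb⟩ : ∃ b, Y = a + b := ⟨Y - a, by omega⟩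
  have hw0 : w ≠ 0 := by
    rintro rfl
    omega
  obtain ⟨u, rfl⟩ : ∃ u, w = u + 1 := ⟨w - 1, by omega⟩
  have h2 : 1 ≤ 2 ^ b := Nat.one_le_two_pow
  have h3 : γ = 2 ^ a * (2 ^ b * u + (2 ^ b - 1)) + (2 ^ a - t) := by
    have e1 : 2 ^ Y * (u + 1) = 2 ^ a * (2 ^ b * u + (2 ^ b - 1)) + 2 ^ a := by
      rw [hb, pow_add]
      obtain ⟨B, hB⟩ : ∃ B, 2 ^ b = B + 1 := ⟨2 ^ b - 1, by omega⟩
      rw [hB, Nat.add_sub_cancel]
      ring
    omega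
  have h4 : γ / 2 ^ a = 2 ^ b * u + (2 ^ b - 1) := by
    rw [h3, Nat.mul_add_div (by positivity), Nat.div_eq_of_lt (by omega), add_zero]
  have h5 := ones_div_pow_le γ a
  rw [h4, h.2.2.2] at h5
  omega

end Pool.Agent.SchP
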