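import Pool.Agent.SchP.P_LIN

/-!
# SchP, target `T_ZER`: the lowest level
-/

set_option autoImplicit false

namespace Pool.Agent.SchP

open Finset
open Pool.Agent.Sch2 (Good good_one)

open LIN_ in
theorem p_ZER (h1 : T_LNS) (h2 : T_SPL) : T_ZER := by
  intro m g ρ e hS M d S hd hlt hrep
  obtain ⟨-, hspl⟩ := h2 m g ρ e hS
  have hP0 : P {0} 1 0 := by
    refine ⟨{1}, good_one.mono (by omega), by simp, ?_⟩
    intro v hv hv1
    have : v = 0 := by simpa using hv
    omega
  rcases Nat.lt_or_ge 1 d with hd1 | hd1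
  · have h3 := h1 1 1 0 (Kc m ρ 0 * (Nat.log 2 M + 1)) 0 d S {0} le_rfl le_rfl
      (by simpa using hd1) hlt
      (fun v hv => by
        obtain ⟨γ, L, e1, -, e3, e4, -⟩ := hspl 0 (Nat.zero_le _) M v (hrep v hv)
        have e5 := e4 rfl
        rw [hS.zero, mul_one, e5, add_zero] at e1
        refine ⟨γ, 0, by omega, by simp, fun t h1 h2 => by omega, by simpa using e3, ?_⟩
        simp [Nat.mod_one])
      (by simpa using hP0)
    refine P_mono h3 Subset.rfl ?_
    have : Nat.log 2 (1 * 1) = 0 := by simp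
    rw [this]
    omega
  · obtain rfl : d = 1 := by omega
    refine P_mono (S := {0}) hP0 (fun v hv => ?_) (by omega)
    have := hlt v hv
    simp only [mem_singleton]
    omega

end Pool.Agent.SchP
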