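import Pool.Agent.SchP.P_ONE
import Pool.Agent.SchP.P_STP
import Pool.Agent.SchP.P_LNS
import Pool.Agent.SchP.P_YST
import Pool.Agent.SchP.P_AVD
import Pool.Agent.SchP.P_STK
import Pool.Agent.SchP.P_SPL
import Pool.Agent.SchP.P_ZER
import Pool.Agent.SchP.P_ST2
import Pool.Agent.SchP.P_IND
import Pool.Agent.SchP.P_SYS
import Pool.Agent.SchP.P_FIN

/-!
# MP_aa5fad_nt: the Scholz inequality up to the fifth power of the number of small steps
-/

set_option autoImplicit false

namespace Pool.Agent.SchP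

theorem main : T_FIN := by
  have hONE := p_ONE
  have hSTP := p_STP
  have hLNS := p_LNS (p_LIN hSTP hONE)
  have hSPL := p_SPL hONE
  exact p_FIN hSTP (p_IND (p_ST1 hLNS (p_YST hONE) hSPL)
    (p_ST2 hLNS (p_STK p_AVD) hONE hSPL) (p_ZER hLNS hSPL)) p_SYS

end Pool.Agent.SchP
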