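import Pool.Agent.SchP.Targets

/-!
# SchP, target `T_LIN`: the line lemma
-/

set_option autoImplicit false

namespace Pool.Agent.SchP

open Finset
open Pool.Agent.SchK (ones ones_zero)

namespace LIN_

theorem P_mono {S S' : Finset ℕ} {d k k' : ℕ} (h : P S d k) (hS : S' ⊆ S) (hk : k ≤ k') :
    P S' d k' := by
  obtain ⟨X, h1, h2, h3⟩ := h
  exact ⟨X, h1.mono (by omega), h2, fun v hv hv1 => h3 v (hS hv) hv1⟩

theorem key {g q J γ L i : ℕ} (hg : 1 ≤ g) (hL : L ≤ J * g) (hs : Stb q J γ)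
    (h : 2 ^ i * (q * g) ≤ γ * g + L) : 2 ^ i * q ≤ γ := by
  by_contra hc
  push Not at hc
  obtain ⟨t, ht⟩ : ∃ t, 2 ^ i * q = γ + t := ⟨2 ^ i * q - γ, by omega⟩
  have ht1 : 1 ≤ t := by omega
  have h1 : t * g ≤ L := by
    have h2 : 2 ^ i * (q * g) = γ * g + t * g := by
      rw [← mul_assoc, ht]
      ring
    omega
  have h2 : t ≤ J := Nat.le_of_mul_le_mul_right (h1.trans hL) (by omega)
  exact hs t ht1 h2 ⟨2 ^ i, by rw [← ht]; ring⟩

theorem stb_mod {q J γ : ℕ} (h : Stb q J γ) : Stb q J (γ % q) := by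
  intro t h1 h2 h3
  apply h t h1 h2
  have h4 : γ + t = (γ % q + t) + q * (γ / q) := by
    have := Nat.mod_add_div γ q
    omega
  rw [h4]
  exact dvd_add h3 (dvd_mul_right _ _)

theorem stb_sub {q J γ i : ℕ} (h : Stb q J γ) (hi : 2 ^ i * q ≤ γ) :
    Stb q J (γ - 2 ^ i * q) := by
  intro t h1 h2 h3
  apply h t h1 h2
  have h4 : γ + t = (γ - 2 ^ i * q + t) + 2 ^ i * q := by omega
  rw [h4]
  exact dvd_add h3 (dvd_mul_left _ _)

theorem rem_lt {g q J γ L : ℕ} (hg : 1 ≤ g) (hq : 1 ≤ q) (hL : L ≤ J * g) (hs : Stb q J γ) :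
    (γ % q) * g + L < q * g := by
  by_contra hc
  push Not at hc
  have h1 := key (i := 0) hg hL (stb_mod hs) (by simpa using hc)
  have h2 := Nat.mod_lt γ (show 0 < q by omega)
  simp only [pow_zero, one_mul] at h1
  omega

theorem sub_mod {q γ i : ℕ} (hi : 2 ^ i * q ≤ γ) : (γ - 2 ^ i * q) % q = γ % q := by
  have h4 : γ = (γ - 2 ^ i * q) + 2 ^ i * q := by omega
  conv_rhs => rw [h4]
  rw [Nat.add_mul_mod_self_right]

theorem ones_sub (hO : T_ONE) {q γ i : ℕ} (hq : 1 ≤ q) (hi : 2 ^ i * q ≤ γ)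
    (hlt : γ < 2 ^ (i + 1) * q) : ones ((γ - 2 ^ i * q) / q) + 1 = ones (γ / q) := by
  obtain ⟨x, hx⟩ : ∃ x, γ = x + 2 ^ i * q := ⟨γ - 2 ^ i * q, by omega⟩
  have h1 : γ - 2 ^ i * q = x := by omega
  have h2 : γ / q = 2 ^ i + x / q := by
    rw [hx, Nat.add_mul_div_right _ _ (by omega : 0 < q), add_comm]
  have h3 : x / q < 2 ^ i := by
    rw [Nat.div_lt_iff_lt_mul (by omega : 0 < q)]
    have h4 : 2 ^ (i + 1) * q = 2 ^ i * q + 2 ^ i * q := by ring
    omega
  rw [h1, h2, hO.1 i _ h3]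
  ring

/-- the reduced coefficient -/
def red (g q i γ L : ℕ) : ℕ := if 2 ^ i * (q * g) ≤ γ * g + L then γ - 2 ^ i * q else γ

theorem red_spec (hO : T_ONE) {g q J γ L i : ℕ} (hg : 1 ≤ g) (hq : 1 ≤ q) (hL : L ≤ J * g)
    (hs : Stb q J γ) (hlt : γ * g + L < 2 ^ (i + 1) * (q * g)) :
    Stb q J (red g q i γ L) ∧ red g q i γ L % q = γ % q ∧
    red g q i γ L * g + L < 2 ^ i * (q * g) ∧
    ones (red g q i γ L / q) + (if 2 ^ i * (q * g) ≤ γ * g + L then 1 else 0) = ones (γ / q) ∧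
    (γ * g + L < 2 ^ i * (q * g) → red g q i γ L * g + L = γ * g + L) ∧
    (2 ^ i * (q * g) ≤ γ * g + L → red g q i γ L * g + L = γ * g + L - 2 ^ i * (q * g)) := by
  by_cases h : 2 ^ i * (q * g) ≤ γ * g + L
  · have h1 := key hg hL hs h
    have e1 : red g q i γ L = γ - 2 ^ i * q := by
      unfold red
      rw [if_pos h]
    have e2 : (γ - 2 ^ i * q) * g + L = γ * g + L - 2 ^ i * (q * g) := by
      obtain ⟨x, hx⟩ : ∃ x, γ = x + 2 ^ i * q := ⟨γ - 2 ^ i * q, by omega⟩
      have e3 : γ - 2 ^ i * q = x := by omega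
      have e4 : γ * g = x * g + 2 ^ i * (q * g) := by
        rw [hx]
        ring
      rw [e3, e4]
      omega
    have e5 : 2 ^ (i + 1) * (q * g) = 2 ^ i * (q * g) + 2 ^ i * (q * g) := by ring
    have h2 : γ < 2 ^ (i + 1) * q := by
      by_contra hc
      push Not at hc
      have h3 : 2 ^ (i + 1) * q * g ≤ γ * g := Nat.mul_le_mul_right g hc
      rw [mul_assoc] at h3
      omega
    rw [e1, if_pos h]
    refine ⟨stb_sub hs h1, sub_mod h1, ?_, ones_sub hO hq h1 h2, fun h3 => ?_, fun _ => e2⟩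
    · rw [e2]
      omega
    · omega
  · have e1 : red g q i γ L = γ := by
      unfold red
      rw [if_neg h]
    rw [e1, if_neg h]
    exact ⟨hs, rfl, by omega, rfl, fun _ => rfl, fun h3 => absurd h3 h⟩

/-- the number of values above the new threshold -/
theorem card_filter_le {A : ℕ} (f : Fin A → ℕ) (D : ℕ) :
    ((univ.image f).filter (fun v => D < v)).card ≤ ∑ j, (if D ≤ f j then 1 else 0) := by
  have h1 : (univ.image f).filter (fun v => D < v) ⊆
      (univ.filter (fun j => D ≤ f j)).image f := by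
    intro v hv
    obtain ⟨h2, h3⟩ := mem_filter.1 hv
    obtain ⟨j, -, rfl⟩ := mem_image.1 h2
    exact mem_image.2 ⟨j, mem_filter.2 ⟨mem_univ _, h3.le⟩, rfl⟩
  refine (card_le_card h1).trans (card_image_le.trans (le_of_eq ?_))
  rw [card_filter]

/-- descending along the line -/
theorem desc (hS : T_STP) (hO : T_ONE) {g q J k : ℕ} {R : Finset ℕ} (hg : 1 ≤ g) (hq : 1 ≤ q)
    (hR : P R (q * g) k) : ∀ (i A : ℕ) (γ L : Fin A → ℕ),
    (∀ j, L j ≤ J * g ∧ Stb q J (γ j)) → (∀ j, γ j * g + L j < 2 ^ i * (q * g)) →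
    (∀ j, (γ j % q) * g + L j ∈ R) →
    P (univ.image fun j => γ j * g + L j) (2 ^ i * (q * g)) (k + i + ∑ j, ones (γ j / q)) := by
  intro i
  induction i with
  | zero =>
    intro A γ L hc hlt hmem
    simp only [pow_zero, one_mul] at hlt ⊢
    refine P_mono hR ?_ (by omega)
    intro v hv
    obtain ⟨j, -, rfl⟩ := mem_image.1 hv
    have h1 : γ j < q := by
      by_contra h2
      push Not at h2
      have h3 : q * g ≤ γ j * g := Nat.mul_le_mul_right g h2
      have h4 := hlt j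
      omega
    have h2 := hmem j
    rw [Nat.mod_eq_of_lt h1] at h2
    exact h2
  | succ i ih =>
    intro A γ L hc hlt hmem
    have hsp := fun j => red_spec hO hg hq (hc j).1 (hc j).2 (hlt j)
    have h1 := ih A (fun j => red g q i (γ j) (L j)) L (fun j => ⟨(hc j).1, (hsp j).1⟩)
      (fun j => (hsp j).2.2.1) (fun j => by
        show (red g q i (γ j) (L j) % q) * g + L j ∈ R
        rw [(hsp j).2.1]
        exact hmem j)
    have e5 : 2 ^ (i + 1) * (q * g) = 2 ^ i * (q * g) + 2 ^ i * (q * g) := by ring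
    have hpos : 1 ≤ 2 ^ i * (q * g) := Nat.succ_le_of_lt (by positivity)
    have h2 := hS (univ.image fun j => γ j * g + L j) _ (2 ^ (i + 1) * (q * g))
      (2 ^ i * (q * g)) _ hpos (by omega)
      (fun v hv => by
        obtain ⟨j, -, rfl⟩ := mem_image.1 hv
        exact (hlt j).le)
      (fun v hv hlt' => by
        obtain ⟨j, -, rfl⟩ := mem_image.1 hv
        exact mem_image.2 ⟨j, mem_univ _, (hsp j).2.2.2.2.1 hlt'⟩)
      (fun v hv hlt' => by
        obtain ⟨j, -, rfl⟩ := mem_image.1 hv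
        exact Or.inl (mem_image.2 ⟨j, mem_univ _, (hsp j).2.2.2.2.2 hlt'.le⟩))
      (Or.inr (by omega)) h1
    refine P_mono h2 Subset.rfl ?_
    have h3 := card_filter_le (fun j => γ j * g + L j) (2 ^ i * (q * g))
    have h4 : ∑ j, ones (γ j / q) = ∑ j, ones (red g q i (γ j) (L j) / q) +
        ∑ j, (if 2 ^ i * (q * g) ≤ γ j * g + L j then 1 else 0) := by
      rw [← sum_add_distrib]
      exact sum_congr rfl fun j _ => ((hsp j).2.2.2.1).symm
    rw [h4]
    omega

end LIN_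

open LIN_ in
theorem p_LIN (h1 : T_STP) (h2 : T_ONE) : T_LIN := by
  intro A g q J V k γd Ld γ L hg hq hwd hLd hsd hVd hlt hc hP
  obtain ⟨w, hw⟩ : ∃ w, w = q * g := ⟨_, rfl⟩
  obtain ⟨d, hd⟩ : ∃ d, d = γd * g + Ld := ⟨_, rfl⟩
  have hwpos : 1 ≤ w := by
    rw [hw]
    exact Nat.succ_le_of_lt (by positivity)
  -- the top index
  obtain ⟨n, hn1, hn2⟩ : ∃ n, 2 ^ n * w < d ∧ d ≤ 2 ^ (n + 1) * w := by
    have hex : ∃ N, d ≤ 2 ^ N * w := ⟨d, by
      calc d ≤ 2 ^ d := Nat.lt_two_pow_self.le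
        _ = 2 ^ d * 1 := (mul_one _).symm
        _ ≤ 2 ^ d * w := Nat.mul_le_mul_left _ hwpos⟩
    classical
    obtain ⟨N, hN⟩ : ∃ N, N = Nat.find hex := ⟨_, rfl⟩
    have h3 : d ≤ 2 ^ N * w := by
      rw [hN]
      exact Nat.find_spec hex
    have h4 : N ≠ 0 := by
      rintro rfl
      rw [pow_zero, one_mul] at h3
      omega
    refine ⟨N - 1, ?_, ?_⟩
    · have h5 := Nat.find_min hex (m := N - 1) (by omega)
      omega
    · have h5 : N - 1 + 1 = N := by omega
      rw [h5]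
      exact h3
  have hlog : n + Nat.log 2 w ≤ Nat.log 2 d := by
    refine Nat.le_log_of_pow_le (by norm_num) ?_
    rw [pow_add]
    exact (Nat.mul_le_mul_left _ (Nat.pow_log_le_self 2 (by omega))).trans hn1.le
  have e5 : 2 ^ (n + 1) * w = 2 ^ n * w + 2 ^ n * w := by ring
  have hpos : 1 ≤ 2 ^ n * w := Nat.succ_le_of_lt (by positivity)
  have hlt2 : ∀ j, γ j * g + L j < 2 ^ (n + 1) * (q * g) := fun j => by
    rw [← hw]
    have := hlt j
    omega
  have hsp := fun j => red_spec h2 hg hq (hc j).1 (hc j).2.1 (hlt2 j)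
  -- the coefficient for `d`
  obtain ⟨x, hx1, hx2, hx3, hx4, hx5⟩ : ∃ x, Stb q J x ∧ x % q = γd % q ∧
      x * g + Ld < 2 ^ n * (q * g) ∧ ones (x / q) ≤ V ∧
      (d - 2 ^ n * w = x * g + Ld ∨ d - 2 ^ n * w = 2 ^ n * w) := by
    rcases Nat.lt_or_ge d (2 ^ (n + 1) * w) with h3 | h3
    · have h4 := red_spec h2 hg hq hLd hsd (i := n) (by rw [← hw, ← hd]; exact h3)
      refine ⟨red g q n γd Ld, h4.1, h4.2.1, h4.2.2.1, ?_, Or.inl ?_⟩
      · have := h4.2.2.2.1
        omega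
      · rw [h4.2.2.2.2.2 (by rw [← hw, ← hd]; exact hn1.le), ← hw, ← hd]
    · refine ⟨γd % q, stb_mod hsd, Nat.mod_mod _ _, ?_, ?_, Or.inr (by omega)⟩
      · refine lt_of_lt_of_le (rem_lt hg hq hLd hsd) ?_
        calc q * g = 1 * (q * g) := (one_mul _).symm
          _ ≤ 2 ^ n * (q * g) := Nat.mul_le_mul_right _ Nat.one_le_two_pow
      · rw [Nat.div_eq_of_lt (Nat.mod_lt _ (by omega)), ones_zero]
        exact Nat.zero_le _
  have h3 := desc h1 h2 (J := J) hg hq hP n (A + 1)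
    (Fin.cons x fun j => red g q n (γ j) (L j)) (Fin.cons Ld L)
    (fun j => by
      refine Fin.cases ?_ (fun j => ?_) j
      · simp only [Fin.cons_zero]
        exact ⟨hLd, hx1⟩
      · simp only [Fin.cons_succ]
        exact ⟨(hc j).1, (hsp j).1⟩)
    (fun j => by
      refine Fin.cases ?_ (fun j => ?_) j
      · simp only [Fin.cons_zero]
        exact hx3
      · simp only [Fin.cons_succ]
        exact (hsp j).2.2.1)
    (fun j => by
      refine Fin.cases ?_ (fun j => ?_) j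
      · simp only [Fin.cons_zero]
        rw [hx2]
        exact mem_insert_self _ _
      · simp only [Fin.cons_succ]
        rw [(hsp j).2.1]
        exact mem_insert_of_mem (mem_image.2 ⟨j, mem_univ _, rfl⟩))
  rw [← hw] at h3
  have h4 := h1 (univ.image fun j => γ j * g + L j) _ d (2 ^ n * w) _ hpos hn1
    (fun v hv => by
      obtain ⟨j, -, rfl⟩ := mem_image.1 hv
      have := hlt j
      omega)
    (fun v hv hlt' => by
      obtain ⟨j, -, rfl⟩ := mem_image.1 hv
      refine mem_image.2 ⟨j.succ, mem_univ _, ?_⟩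
      simp only [Fin.cons_succ]
      exact (hsp j).2.2.2.2.1 (by rw [← hw]; exact hlt'))
    (fun v hv hlt' => by
      obtain ⟨j, -, rfl⟩ := mem_image.1 hv
      refine Or.inl (mem_image.2 ⟨j.succ, mem_univ _, ?_⟩)
      simp only [Fin.cons_succ]
      have h5 := (hsp j).2.2.2.2.2 (by rw [← hw]; exact hlt'.le)
      rw [← hw] at h5
      exact h5)
    (by
      rcases hx5 with h5 | h5
      · refine Or.inl (mem_image.2 ⟨0, mem_univ _, ?_⟩)
        simp only [Fin.cons_zero]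
        exact h5.symm
      · exact Or.inr h5)
    h3
  rw [← hd, ← hw]
  refine P_mono h4 Subset.rfl ?_
  have h5 := card_filter_le (fun j => γ j * g + L j) (2 ^ n * w)
  have h6 : ∑ j, ones (γ j / q) = ∑ j, ones (red g q n (γ j) (L j) / q) +
      ∑ j, (if 2 ^ n * w ≤ γ j * g + L j then 1 else 0) := by
    rw [← sum_add_distrib]
    refine sum_congr rfl fun j _ => ?_
    have := (hsp j).2.2.2.1
    rw [← hw] at this
    exact this.symm
  have h7 : ∑ j, ones (γ j / q) ≤ A * V := by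
    calc ∑ j, ones (γ j / q) ≤ ∑ _j : Fin A, V := sum_le_sum fun j _ => (hc j).2.2
      _ = A * V := by simp
  have h8 : ∑ j, ones ((Fin.cons x (fun j => red g q n (γ j) (L j)) : Fin (A + 1) → ℕ) j / q) =
      ones (x / q) + ∑ j, ones (red g q n (γ j) (L j) / q) := by
    rw [Fin.sum_univ_succ]
    simp only [Fin.cons_zero, Fin.cons_succ]
  rw [h8]
  have h9 : (A + 1) * V = A * V + V := by ring
  rw [h9]
  omega

end Pool.Agent.SchP
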