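import Pool.Agent.SchP.Targets

/-!
# SchP, target `T_ONE`: binary digits
-/

set_option autoImplicit false

namespace Pool.Agent.SchP

open Pool.Agent.SchK

theorem p_ONE : T_ONE := by
  refine ⟨?_, ?_, ?_, ?_⟩
  · intro j
    induction j with
    | zero =>
      intro y hy
      obtain rfl : y = 0 := by omega
      simp [ones_zero, ones_one]
    | succ j ih =>
      intro y hy
      rcases Nat.even_or_odd' y with ⟨z, rfl | rfl⟩
      · have h1 : 2 ^ (j + 1) + 2 * z = 2 * (2 ^ j + z) := by ring
        rw [h1, ones_two_mul, ones_two_mul]
        exact ih z (by rw [pow_succ] at hy; omega)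
      · have h1 : 2 ^ (j + 1) + (2 * z + 1) = 2 * (2 ^ j + z) + 1 := by ring
        rw [h1, ones_two_mul_add_one, ones_two_mul_add_one,
          ih z (by rw [pow_succ] at hy; omega)]
        ring
  · intro x
    induction x using Nat.strong_induction_on with
    | _ x ih =>
      rcases Nat.lt_or_ge x 2 with h | h
      · interval_cases x
        · simp [ones_zero]
        · simp [ones_one]
      · have hl : Nat.log 2 x = Nat.log 2 (x / 2) + 1 := by
          rw [Nat.log_div_base]
          have : 1 ≤ Nat.log 2 x := Nat.log_pos (by norm_num) h
          omega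
        rw [hl]
        rcases Nat.even_or_odd' x with ⟨z, rfl | rfl⟩
        · rw [ones_two_mul, Nat.mul_div_cancel_left z two_pos]
          have := ih z (by omega)
          omega
        · have h1 : (2 * z + 1) / 2 = z := by omega
          rw [ones_two_mul_add_one, h1]
          have := ih z (by omega)
          omega
  · intro b x
    induction b with
    | zero => simp
    | succ b ih =>
      have h1 : 2 ^ (b + 1) * x = 2 * (2 ^ b * x) := by ring
      rw [h1, ones_two_mul, ih]
  · intro b x
    induction b with
    | zero => simp
    | succ b ih =>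
      have h0 : 1 ≤ 2 ^ b := Nat.one_le_two_pow
      have h1 : 2 ^ (b + 1) * x + (2 ^ (b + 1) - 1) = 2 * (2 ^ b * x + (2 ^ b - 1)) + 1 := by
        have h2 : 2 ^ (b + 1) = 2 * 2 ^ b := by ring
        rw [h2, Nat.mul_assoc]
        omega
      rw [h1, ones_two_mul_add_one, ih]
      ring

end Pool.Agent.SchP
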