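import Pool.Agent.SchP.P_LIN

/-!
# SchP, target `T_ST1`: stage 1 of a level
-/

set_option autoImplicit false

namespace Pool.Agent.SchP

open Finset
open Pool.Agent.SchK (ones ones_div_pow_le)

namespace ST1_

theorem Rep_mono {m : ℕ} {g ρ e : ℕ → ℕ} {c M M' v : ℕ} (h : Rep m g ρ e c M v) (hM : M ≤ M') :
    Rep m g ρ e c M' v := by
  obtain ⟨μ, h1, h2, h3⟩ := h
  exact ⟨μ, h1.trans hM, h2, h3⟩

theorem Rep_zero {m : ℕ} {g ρ e : ℕ → ℕ} {c : ℕ} : Rep m g ρ e c 0 0 :=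
  ⟨fun _ => 0, by simp, fun _ _ _ => rfl, by simp⟩

/-- the multiples of the base of a run -/
theorem Rep_mul (h3 : T_SPL) {m : ℕ} {g ρ e : ℕ → ℕ} (hS : Sys m g ρ e) {c M : ℕ} (hc : c < m) :
    ∀ r, Rep m g ρ e c (M + 2 * r) (r * g (c + 1) + 0) := by
  intro r
  obtain ⟨γ, L, e1, -, -, -, e5⟩ := (h3 m g ρ e hS).2 (c + 1) hc 0 0 Rep_zero
  have e2 : L = 0 := by omega
  have e6 := e5 c rfl r
  rw [e2] at e6
  exact Rep_mono e6 (by omega)

end ST1_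

open LIN_ ST1_ in
theorem p_ST1 (h1 : T_LNS) (h2 : T_YST) (h3 : T_SPL) : T_ST1 := by
  intro m g ρ e hS c hc M V Y d S hV hY hd hlt hrep
  obtain ⟨hgpos, hspl⟩ := h3 m g ρ e hS
  have hG1 : 1 ≤ g (c + 1) := hgpos (c + 1) hc
  have hch : ∀ v ∈ insert d S, ∃ γ L, v = γ * g (c + 1) + L ∧ L ≤ M * g (c + 1) ∧ ones γ ≤ V ∧
      ∀ r, Rep m g ρ e c (M + 2 * r) (r * g (c + 1) + L) := by
    intro v hv
    obtain ⟨γ, L, e1, e2, e3, -, e5⟩ := hspl (c + 1) hc M v (hrep v hv)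
    exact ⟨γ, L, e1, e2, by rw [hV]; exact e3, e5 c rfl⟩
  rcases Nat.lt_or_ge (2 ^ Y * g (c + 1)) d with hdw | hdw
  · choose! γ L e1 e2 e3 e4 using hch
    have hst : ∀ v ∈ insert d S, Stb (2 ^ Y) M (γ v) := fun v hv =>
      h2 Y M V (γ v) (e3 v hv) (by omega)
    refine ⟨(insert d S).image fun v => (γ v % 2 ^ Y) * g (c + 1) + L v, 2 ^ Y * g (c + 1),
      Nat.succ_le_of_lt (by positivity), hdw.le, ?_, ?_, ?_, fun k hk => ?_⟩
    · exact card_image_le.trans (card_insert_le _ _)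
    · intro w hw
      obtain ⟨v, hv, rfl⟩ := mem_image.1 hw
      exact rem_lt hG1 Nat.one_le_two_pow (e2 v hv) (hst v hv)
    · intro w hw
      rcases mem_insert.1 hw with rfl | hw
      · exact ⟨2 ^ Y, 0, by omega, le_rfl, Nat.zero_le _, Rep_mul h3 hS hc⟩
      · obtain ⟨v, hv, rfl⟩ := mem_image.1 hw
        exact ⟨γ v % 2 ^ Y, L v, rfl, (Nat.mod_lt _ (by positivity)).le, e2 v hv, e4 v hv⟩
    · have h4 := h1 (g (c + 1)) (2 ^ Y) M V _ d S _ hG1 Nat.one_le_two_pow hdw hlt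
        (fun v hv => ⟨γ v, L v, e1 v hv, e2 v hv, hst v hv,
          (ones_div_pow_le _ _).trans (e3 v hv), mem_image.2 ⟨v, hv, rfl⟩⟩) hk
      refine P_mono h4 Subset.rfl ?_
      have h5 : Nat.log 2 (2 ^ Y * g (c + 1)) ≤ Nat.log 2 d := Nat.log_mono_right hdw.le
      omega
  · refine ⟨S, d, hd, le_rfl, by omega, hlt, fun v hv => ?_,
      fun k hk => P_mono hk Subset.rfl (by omega)⟩
    obtain ⟨γ, L, e1, e2, e3, e4⟩ := hch v hv
    refine ⟨γ, L, e1, ?_, e2, e4⟩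
    have hvd : v ≤ d := by
      rcases mem_insert.1 hv with rfl | hv
      · exact le_rfl
      · exact (hlt v hv).le
    exact Nat.le_of_mul_le_mul_right (by omega : γ * g (c + 1) ≤ 2 ^ Y * g (c + 1)) hG1

end Pool.Agent.SchP
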