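import Pool.Agent.SchP.Defs

/-!
# MP_aa5fad_nt, the Scholz inequality up to `C s ^ 3 (log₂ s + 1)`: targets

THEOREM. There is `C` such that `ℓ(2 ^ n - 1) ≤ n - 1 + ℓ(n) + C s ^ 3 (log₂ s + 1)` for every
`n ≥ 1`, where `s = ℓ(n) - ⌊log₂ n⌋`. Deliver `theorem p_X : T_X` (targets named in brackets are hypotheses) in the
NEW file `Pool/Agent/SchP/P_X.lean` which imports this file, namespace `Pool.Agent.SchP`, helper
lemmas in the sub-namespace `X_`. Useful landed lemmas: `Pool/Agent/SchK/Basic.lean`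
(`ones_add_le`, `ones_two_mul`, `ones_div_pow_le`, ...), `Pool/Agent/Sch2/Good.lean` (`Good.ins`,
`Good.shift`, `Good.len_le`, `good_one`), `Pool/Agent/SchK/Count.lean` (`nd_le`, `nd_succ_of_eq`).
-/

set_option autoImplicit false

namespace Pool.Agent.SchP

open Finset
open Pool.Agent.SchK (IsChain len ones nd)
open Pool.Agent.Sch2 (Good)

/-- ONE (20 min). Binary digits. PROOF. (1), (3), (4) by induction on `j`, `b` with `ones_two_mul`,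
`ones_two_mul_add_one` (for (1): `2 ^ (j+1) + y` with `y = 2 z` or `2 z + 1`, `z < 2 ^ j`).
(2) by strong induction on `x`, `x = 2 z` or `2 z + 1`. -/
def T_ONE : Prop :=
  (∀ j y : ℕ, y < 2 ^ j → ones (2 ^ j + y) = 1 + ones y) ∧
  (∀ x : ℕ, ones x ≤ Nat.log 2 x + 1) ∧
  (∀ b x : ℕ, ones (2 ^ b * x) = ones x) ∧
  (∀ b x : ℕ, ones (2 ^ b * x + (2 ^ b - 1)) = ones x + b)

/-- STP (25 min). One step of the main line. PROOF. `X'` from `P S' d' k`. `Good.shift` with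
`y = 2 ^ d' - 1` and `u = d - d'` gives `X'' ⊇ X'` with `Good X'' (d + k)` which contains
`2 ^ j * (2 ^ d' - 1)`, `j ≤ d - d'`. Add by `Good.ins` the number
`2 ^ d - 1 = 2 ^ (d - d') * (2 ^ d' - 1) + (2 ^ (d - d') - 1)`
and for every `v ∈ S` with `d' < v` the number
`2 ^ v - 1 = 2 ^ (v - d') * (2 ^ d' - 1) + (2 ^ (v - d') - 1)` (induction on the finite set). -/
def T_STP : Prop := ∀ (S S' : Finset ℕ) (d d' k : ℕ), 1 ≤ d' → d' < d → (∀ v ∈ S, v ≤ d) →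
  (∀ v ∈ S, v < d' → v ∈ S') → (∀ v ∈ S, d' < v → v - d' ∈ S' ∨ v - d' = d') →
  (d - d' ∈ S' ∨ d - d' = d') → P S' d' k →
  P S d (k + 1 + (S.filter (fun v => d' < v)).card)

/-- LIN (50 min, from STP, ONE). The line lemma for indexed families. PROOF. `w = q g`.
KEY: if `v = γ g + L`, `L ≤ J g`, `Stb q J γ` and `2 ^ i * w ≤ v` then `2 ^ i * q ≤ γ` (otherwise
`γ = 2 ^ i q - t`, `1 ≤ t`, and `t g ≤ L ≤ J g` gives `t ≤ J`, `q ∣ γ + t`). Also `Stb` depends only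
on `γ % q`, so it holds for `γ - 2 ^ i q`, and `(γ % q) g + L < q g` (KEY with `i = 0` for
`γ % q`).
(A) By induction on `i`, for all families `γ, L : Fin A → ℕ` with `v = γ g + L < 2 ^ i w`:
`P (remainders) w k → P (values) (2 ^ i w) (k + i + ∑ ones (γ / q))`. `i = 0`: `γ < q`. Step to
`i + 1`: STP with `d = 2 ^ (i+1) w`, `d' = 2 ^ i w` (`d - d' = d'`), new family `γ' = γ - 2 ^ i q`
if `2 ^ i w ≤ v`, otherwise `γ' = γ`; `v - d' < d'`; in the first case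
`2 ^ i ≤ γ / q < 2 ^ (i+1)`, so `ones (γ' / q) = ones (γ / q) - 1` by ONE.
(B) Let `2 ^ (N-1) w < d ≤ 2 ^ N w`, `N ≥ 1`, `N - 1 ≤ log d - log w`. STP with
`d' = 2 ^ (N-1) w`: the family as in (A) and one more member for `d`: `γd - 2 ^ (N-1) q` if
`d - d' < d'`, and `γd % q` if `d - d' = d'`. -/
def T_LIN : Prop := ∀ (A g q J V k γd Ld : ℕ) (γ L : Fin A → ℕ), 1 ≤ g → 1 ≤ q →
  q * g < γd * g + Ld → Ld ≤ J * g → Stb q J γd → ones (γd / q) ≤ V →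
  (∀ i, γ i * g + L i < γd * g + Ld) →
  (∀ i, L i ≤ J * g ∧ Stb q J (γ i) ∧ ones (γ i / q) ≤ V) →
  P (insert ((γd % q) * g + Ld) (univ.image fun i => (γ i % q) * g + L i)) (q * g) k →
  P (univ.image fun i => γ i * g + L i) (γd * g + Ld)
    (k + (Nat.log 2 (γd * g + Ld) - Nat.log 2 (q * g) + 1) + (A + 1) * V)

/-- LNS (15 min, from LIN). The line lemma for sets. PROOF. Choose `γ`, `L` for every
`v ∈ insert d S`, index `S` by `S.equivFin`, and monotonicity of `P` in the set. -/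
def T_LNS : Prop := ∀ (g q J V k d : ℕ) (S S' : Finset ℕ), 1 ≤ g → 1 ≤ q → q * g < d →
  (∀ v ∈ S, v < d) →
  (∀ v ∈ insert d S, ∃ γ L, v = γ * g + L ∧ L ≤ J * g ∧ Stb q J γ ∧ ones (γ / q) ≤ V ∧
    (γ % q) * g + L ∈ S') →
  P S' (q * g) k → P S d (k + (Nat.log 2 d - Nat.log 2 (q * g) + 1) + (S.card + 1) * V)

/-- AVD (35 min). Small numbers which divide no member of a given set. PROOF. Let `n = C N Z`. If
every prime `p ≤ n` divides some `x ∈ s` then the product of the primes up to `n` (`primorial n`)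
divides the product of the `x ∈ s`, so `primorial n ≤ 2 ^ (N Z)` and
`θ n = log (primorial n) ≤ N Z log 2` (`Chebyshev.theta_eq_log_primorial`). But
`θ n ≥ n log 2 - log (n+1) - 2 √n log n ≥ n log 2 / 2` for large `n` (`Chebyshev.theta_ge` in
Mathlib.NumberTheory.Chebyshev). Take `C ≥ 4` larger than this bound for `n`. -/
def T_AVD : Prop := ∃ C : ℕ, ∀ (N Z : ℕ) (s : Finset ℕ), 1 ≤ N → 1 ≤ Z → s.card ≤ N →
  (∀ x ∈ s, 1 ≤ x ∧ x ≤ 2 ^ Z) → ∃ p, 1 ≤ p ∧ p ≤ C * (N * Z) ∧ ∀ x ∈ s, ¬ p ∣ x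

/-- STK (15 min, from AVD). PROOF. AVD for the set of all `γ + t`, `γ ∈ Γ`, `1 ≤ t ≤ M`;
`γ + t ≤ 2 ^ (Y+1)`, `N = A M`, `Z = Y + 1`. -/
def T_STK : Prop := ∃ C : ℕ, ∀ (A M Y : ℕ) (Γ : Finset ℕ), 1 ≤ A → 1 ≤ M → M ≤ 2 ^ Y →
  Γ.card ≤ A → (∀ γ ∈ Γ, γ ≤ 2 ^ Y) →
  ∃ κ, 1 ≤ κ ∧ κ ≤ C * (A * M * (Y + 1)) ∧ ∀ γ ∈ Γ, Stb κ M γ

/-- YST (25 min, from ONE). PROOF. If `2 ^ Y ∣ γ + t`, `1 ≤ t ≤ M < 2 ^ a`, `a = log M + 1 ≤ Y`,
then `γ = u 2 ^ Y + (2 ^ Y - t)`, so `γ / 2 ^ a = 2 ^ (Y-a) u + (2 ^ (Y-a) - 1)`, which has at least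
`Y - a > V` ones (ONE (4)); but `ones (γ / 2 ^ a) ≤ ones γ ≤ V` (`ones_div_pow_le`). -/
def T_YST : Prop := ∀ Y M V γ : ℕ, ones γ ≤ V → Nat.log 2 M + V + 2 ≤ Y → Stb (2 ^ Y) M γ

/-- SPL (35 min, from ONE). PROOF. `γ = ∑ μ j 2 ^ e j` over the `j` with `ρ j = c`,
`L = ∑ μ j (2 ^ e j g (ρ j))` over the `j` with `ρ j < c`; `L ≤ (∑ μ j) g c ≤ M g c` by `dom`.
`ones γ ≤ ∑ ones (μ j 2 ^ e j) = ∑ ones (μ j) ≤ Kc c (log M + 1)` (`ones_add_le`, ONE (2), (3),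
`μ j ≤ M`). For `c = c' + 1` (`c' < m`): `r g c + L` has the coefficients `μ j` for `ρ j ≤ c'`,
increased by `r` at `j = 2 c'` and `j = 2 c' + 1` (`Sys.eq`, `le0`, `le1`). Positivity: by induction
on `c`. -/
def T_SPL : Prop := ∀ (m : ℕ) (g ρ e : ℕ → ℕ), Sys m g ρ e → (∀ c ≤ m, 1 ≤ g c) ∧
  ∀ c ≤ m, ∀ M v : ℕ, Rep m g ρ e c M v → ∃ γ L, v = γ * g c + L ∧ L ≤ M * g c ∧
    ones γ ≤ Kc m ρ c * (Nat.log 2 M + 1) ∧ (c = 0 → L = 0) ∧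
    ∀ c', c = c' + 1 → ∀ r, Rep m g ρ e c' (M + 2 * r) (r * g c + L)

/-- ST1 (35 min, from LNS, YST, SPL). Stage 1 of a level. PROOF. `G = g (c+1)`. If `d ≤ 2 ^ Y G`
take `S1 = S`, `d1 = d` (SPL: `v = γ G + L ≤ 2 ^ Y G`, so `γ ≤ 2 ^ Y`). Otherwise `d1 = 2 ^ Y G`
and `S1` = the remainders `(γ % 2 ^ Y) G + L` (`v ∈ insert d S`, chosen by SPL); LNS with
`q = 2 ^ Y`, `J = M` (YST; `ones (γ / 2 ^ Y) ≤ ones γ`). `v < d1` for `v ∈ S1`: otherwise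
`t = 2 ^ Y - γ % 2 ^ Y` satisfies `t G ≤ L ≤ M G`, contradiction to `Stb`. `Th` for `d1 = 2 ^ Y G`:
`γ = 2 ^ Y`, `L = 0`, and SPL for `v = 0`, `M = 0`. -/
def T_ST1 : Prop := ∀ (m : ℕ) (g ρ e : ℕ → ℕ), Sys m g ρ e → ∀ c < m, ∀ (M V Y d : ℕ)
  (S : Finset ℕ), V = Kc m ρ (c + 1) * (Nat.log 2 M + 1) → Y = Nat.log 2 M + V + 2 → 1 ≤ d →
  (∀ v ∈ S, v < d) → (∀ v ∈ insert d S, Rep m g ρ e (c + 1) M v) →
  ∃ (S1 : Finset ℕ) (d1 : ℕ), 1 ≤ d1 ∧ d1 ≤ d ∧ S1.card ≤ S.card + 1 ∧ (∀ v ∈ S1, v < d1) ∧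
    (∀ v ∈ insert d1 S1, Th m g ρ e c M (2 ^ Y) v) ∧
    ∀ k, P S1 d1 (Nat.log 2 d1 + k) → P S d (Nat.log 2 d + k + 1 + (S.card + 1) * V)

/-- ST2 (35 min, from LNS, STK, ONE, SPL). Stage 2 of a level. PROOF. `G = g (c+1)`. Choose `γ`, `L`
for `v ∈ insert d S`, and `κ` by STK for the set of these `γ`, `A = S.card + 1`. If `d ≤ κ G` take
`S2 = S`, `d2 = d` (`γ ≤ κ`, so `Rep c (M + 2 γ)` gives `Rep c (M + 2 κ)`). Otherwise `d2 = κ G` and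
`S2` = the remainders `(γ % κ) G + L`; LNS with `q = κ`, `J = M`, `V + 3`
(`κ > M` by `Stb`, so `γ / κ ≤ 2 ^ (Y - log M)` and `ones (γ / κ) ≤ V + 3`); `v < d2` for `v ∈ S2` as in ST1; `Rep` for `κ G`: SPL
for `v = 0`, `M = 0`. -/
def T_ST2 : Prop := ∃ C : ℕ, ∀ (m : ℕ) (g ρ e : ℕ → ℕ), Sys m g ρ e → ∀ c < m, ∀ (M V Y d : ℕ)
  (S : Finset ℕ), 1 ≤ M → Y = Nat.log 2 M + V + 2 → 1 ≤ d →
  (∀ v ∈ S, v < d) → (∀ v ∈ insert d S, Th m g ρ e c M (2 ^ Y) v) →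
  ∃ (κ : ℕ) (S2 : Finset ℕ) (d2 : ℕ), κ ≤ C * ((S.card + 1) * M * (Y + 1)) ∧
    1 ≤ d2 ∧ d2 ≤ d ∧ S2.card ≤ S.card + 1 ∧ (∀ v ∈ S2, v < d2) ∧
    (∀ v ∈ insert d2 S2, Rep m g ρ e c (M + 2 * κ) v) ∧
    ∀ k, P S2 d2 (Nat.log 2 d2 + k) → P S d (Nat.log 2 d + k + 1 + (S.card + 1) * (V + 3))

/-- ZER (20 min, from LNS, SPL). The lowest level. PROOF. If `d = 1` then `S ⊆ {0}` and `X = {1}`.
Otherwise LNS with `g = 1`, `q = 1`, `J = 0` (`Stb 1 0` is empty), `S' = {0}` and `P {0} 1 0`;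
`g 0 = 1`, `L = 0` by SPL; `ones (γ / 1) = ones γ`. -/
def T_ZER : Prop := ∀ (m : ℕ) (g ρ e : ℕ → ℕ), Sys m g ρ e → ∀ (M d : ℕ) (S : Finset ℕ), 1 ≤ d →
  (∀ v ∈ S, v < d) → (∀ v ∈ insert d S, Rep m g ρ e 0 M v) →
  P S d (Nat.log 2 d + 1 + (S.card + 1) * (Kc m ρ 0 * (Nat.log 2 M + 1)))

/-- IND (50 min, from ST1, ST2, ZER). Induction on the levels. PROOF. `C₂` from ST2, `K = 2 C₂ + 16`,
`N = m + 1`, `l = log N + 1`, `β = K l`, so `33 (C₂ + 1) β N ^ 3 ≤ 2 ^ β`. By induction on `c ≤ m`: if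
`S.card ≤ 2 (m - c)`, `v < d` on `S` and all of `insert d S` are `Rep c (2 ^ (β (m - c)))` then
`P S d (log d + ∑ (c' ≤ c) (2 + 2 N (2 Kc c' (β N + 1) + 3)))`. `c = 0`: ZER. Step to `c + 1`:
`M = 2 ^ (β (m - c - 1))`, ST1, then ST2 (`S1.card ≤ 2 (m - c) - 1`), `Y + 1 ≤ 8 β N ^ 2`,
`M + 2 κ ≤ M (1 + 4 C₂ m (Y+1)) ≤ M 2 ^ β`. `∑ Kc c' ≤ 2 m + 1`. Apply it with `c = m`, `S = ∅`,
`d = 2 ^ e (2m) g m` (`Rep m 1`). -/
def T_IND : Prop := ∃ C : ℕ, ∀ (m : ℕ) (g ρ e : ℕ → ℕ), Sys m g ρ e →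
  P ∅ (2 ^ e (2 * m) * g m) (Nat.log 2 (2 ^ e (2 * m) * g m) +
    C * ((m + 1) ^ 3 * (Nat.log 2 (m + 1) + 1)))

/-- SYS (45 min). The runs of a chain. PROOF. By induction on `r' ≤ r` there are `m ≤ nd a r'` and
`g, ρ, e` with: `zero`, `eq`, `le0`, `le1` for `c < m`; `dom` for `j < 2 m`; for every `i ≤ r'`
there are `c ≤ m` and `y` with `a i = 2 ^ y g c` and `a i ≤ g c'` for `c < c' ≤ m`; for `i = r'` one
can take `c = m`; `g m ≤ a r'`. Step: if `a (r'+1) = 2 a r'` nothing changes. Otherwise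
`a (r'+1) = a i + a j` with `i, j ≤ r'`: the new run is `g (m+1) = a (r'+1)`, and the positions
`2 m`, `2 m + 1` are those of `a i`, `a j` (`Function.update`; the old positions `j < 2 m` have
`ρ j < m`, so they are `≤ g m < g (m+1)`). At the end put `ρ (2m) = m`, `e (2m) = y` where
`n = a r = 2 ^ y g m`. -/
def T_SYS : Prop := ∀ (n r : ℕ) (a : ℕ → ℕ), IsChain n r a → ∃ (m : ℕ) (g ρ e : ℕ → ℕ),
  m ≤ nd a r ∧ Sys m g ρ e ∧ n = 2 ^ e (2 * m) * g m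

/-- FIN (30 min, from STP, IND, SYS). PROOF. A shortest chain of `n` has `r = len n` steps
(`exists_binary` for the existence), `m ≤ nd a r ≤ 4 s` (`IsChain.nd_le`). `s ≥ 1`: IND and
`Good.len_le` (`log n ≤ len n`: `IsChain.log_le`), `m + 1 ≤ 5 s`, `log (5 s) ≤ log s + 3`. `s = 0`:
then `m = 0` and `n = 2 ^ x`; `P ∅ (2 ^ x) x` by induction on `x` with STP (`d - d' = d'`), and
`x = log n = len n`. -/
def T_FIN : Prop := ∃ C : ℕ, ∀ n : ℕ, 1 ≤ n → len (2 ^ n - 1) ≤ n - 1 + len n +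
  C * ((len n - Nat.log 2 n) ^ 3 * (Nat.log 2 (len n - Nat.log 2 n) + 1))

end Pool.Agent.SchP
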